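import Mathlib
import Pool.Agent.N176.GP.Up

set_option autoImplicit false

/-!
# Integers with prime rough part in short intervals: an upper bound
-/

namespace Run7.h854.PO

open Finset Filter Topology
open Pool.Agent.H305R2 (roughPart roughPart_prime roughPart_mul SM SM_pos SMz mem_SMz VV ZZ VV_nonneg
  ZZ_nonneg ZZ_le_exp sum_le_VV sum_rough_eq log_nat_tendsto count_inner tail_le)
open Pool.Agent.W66 (VV_le_log)

/-- a smooth number has a divisor in `[S, S q]` -/
lemma smooth_divisor {q s : ℕ} (hs : s ∈ SM q) {S : ℝ} (hS : 1 ≤ S) (hSs : S ≤ s) :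
    ∃ d ∈ SM q, d ∣ s ∧ S ≤ (d : ℝ) ∧ (d : ℝ) ≤ S * (q + 1 : ℕ) := by
  classical
  have hs0 : 0 < s := SM_pos hs
  set D := s.divisors.filter (fun d : ℕ => S ≤ (d : ℝ)) with hD
  have hne : D.Nonempty := ⟨s, by
    rw [hD, mem_filter, Nat.mem_divisors]
    exact ⟨⟨dvd_rfl, hs0.ne'⟩, hSs⟩⟩
  set d := D.min' hne with hd
  have hdD : d ∈ D := Finset.min'_mem D hne
  have hdD' := hdD
  rw [hD, mem_filter, Nat.mem_divisors] at hdD'
  obtain ⟨⟨hds, _⟩, hSd⟩ := hdD'
  have hdSM : d ∈ SM q := Nat.mem_smoothNumbers_of_dvd hs hds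
  refine ⟨d, hdSM, hds, hSd, ?_⟩
  have hq1 : (1 : ℝ) ≤ ((q + 1 : ℕ) : ℝ) := by
    push_cast
    linarith [(Nat.cast_nonneg q : (0 : ℝ) ≤ q)]
  rcases Nat.eq_or_lt_of_le (SM_pos hdSM) with h1 | h1
  · rw [← h1]
    push_cast
    push_cast at hq1
    nlinarith
  · obtain ⟨p, hp, hpd⟩ := Nat.exists_prime_and_dvd (show d ≠ 1 by omega)
    have hpq : p < q + 1 := (Nat.mem_smoothNumbers'.1 hdSM) p hp hpd
    obtain ⟨e, he⟩ := hpd
    have he0 : 0 < e := by
      rcases Nat.eq_zero_or_pos e with h | h
      · rw [h] at he; omega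
      · exact h
    have hed : e < d := by
      have := hp.two_le
      nlinarith
    have heD : e ∉ D := fun h => by
      have := Finset.min'_le D e h
      omega
    have heS : (e : ℝ) < S := by
      by_contra hc
      push Not at hc
      apply heD
      rw [hD, mem_filter, Nat.mem_divisors]
      exact ⟨⟨(Dvd.intro_left p he.symm).trans hds, hs0.ne'⟩, hc⟩
    have h2 : (d : ℝ) = p * e := by rw [he]; push_cast; ring
    rw [h2]
    have h3 : (p : ℝ) ≤ ((q + 1 : ℕ) : ℝ) := by exact_mod_cast hpq.le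
    have h4 : (0 : ℝ) ≤ e := Nat.cast_nonneg e
    have h5 : (0 : ℝ) ≤ p := Nat.cast_nonneg p
    calc (p : ℝ) * e ≤ ((q + 1 : ℕ) : ℝ) * S := by gcongr
      _ = _ := mul_comm _ _

/-- large smooth parts in short intervals -/
lemma large_smooth_short (q u H : ℕ) (hu : 1 ≤ u) {S : ℝ} (hS : 1 ≤ S) (hSq : S * (q + 1 : ℕ) ≤ H) :
    (((Ico u (u + H)).filter (fun m => (roughPart q m).Prime ∧
      S ≤ ((m / roughPart q m : ℕ) : ℝ))).card : ℝ) ≤ 2 * H * (S ^ (-(1 / 2) : ℝ) * ZZ q) := by
  classical
  have hS0 : 0 < S := by linarith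
  set T := (SMz q (S * (q + 1 : ℕ))).filter (fun s : ℕ => S ≤ (s : ℝ)) with hT
  have hnn : (0 : ℝ) ≤ S * (q + 1 : ℕ) := by positivity
  have hTm : ∀ n ∈ T, n ∈ SM q ∧ S ≤ (n : ℝ) := by
    intro n hn
    rw [hT, mem_filter, mem_SMz hnn] at hn
    exact ⟨hn.1.1, hn.2⟩
  have hsub : (Ico u (u + H)).filter (fun m => (roughPart q m).Prime ∧
      S ≤ ((m / roughPart q m : ℕ) : ℝ)) ⊆ T.biUnion (fun s => (Ico u (u + H)).filter (fun m => s ∣ m)) := by
    intro m hm
    rw [mem_filter] at hm
    obtain ⟨hm1, hpr, hSm⟩ := hm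
    obtain ⟨_, s, hs, he⟩ := roughPart_prime hpr
    have hdiv : m / roughPart q m = s := Nat.div_eq_of_eq_mul_left hpr.pos he
    rw [hdiv] at hSm
    obtain ⟨d, hd1, hd2, hd3, hd4⟩ := smooth_divisor hs hS hSm
    rw [mem_biUnion]
    refine ⟨d, ?_, ?_⟩
    · rw [hT, mem_filter, mem_SMz hnn]
      exact ⟨⟨hd1, hd4⟩, hd3⟩
    · rw [mem_filter]
      exact ⟨hm1, hd2.trans ⟨_, he⟩⟩
  have hcard : ∀ s ∈ T, (((Ico u (u + H)).filter (fun m => s ∣ m)).card : ℝ) ≤ 2 * H * (s : ℝ)⁻¹ := by
    intro s hs
    have hs' := hs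
    rw [hT, mem_filter, mem_SMz hnn] at hs'
    have hs1 := SM_pos hs'.1.1
    have hs0 : (0 : ℝ) < s := by exact_mod_cast hs1
    have hsH : (s : ℝ) ≤ H := hs'.1.2.trans hSq
    have e : (Ico u (u + H)).filter (fun m => s ∣ m) = (Ioc (u - 1) (u + H - 1)).filter (fun m => s ∣ m) := by
      ext m; simp only [mem_filter, mem_Ico, mem_Ioc]; omega
    have h1 : ((Ioc (u - 1) (u + H - 1)).filter (fun m => s ∣ m)).card ≤ H / s + 1 := by
      have h2 : ((Ioc (u - 1) (u + H - 1)).filter (fun m => s ∣ m)) ⊆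
          (Ioc ((u - 1) / s) ((u + H - 1) / s)).image (fun k => s * k) := by
        intro m hm
        rw [mem_filter, mem_Ioc] at hm
        obtain ⟨⟨h3, h4⟩, k, hk⟩ := hm
        rw [mem_image]
        refine ⟨k, ?_, hk.symm⟩
        rw [mem_Ioc, Nat.div_lt_iff_lt_mul hs1, Nat.le_div_iff_mul_le hs1, mul_comm k s, ← hk]
        exact ⟨h3, h4⟩
      refine (Finset.card_le_card h2).trans (Finset.card_image_le.trans ?_)
      rw [Nat.card_Ioc]
      have h5 : (u + H - 1) / s ≤ (u - 1) / s + (H / s + 1) := by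
        have h6 : u + H - 1 = (u - 1) + H := by omega
        rw [h6, Nat.div_le_iff_le_mul_add_pred hs1]
        have h7 := Nat.div_add_mod (u - 1) s
        have h8 := Nat.div_add_mod H s
        have h9 := Nat.mod_lt (u - 1) hs1
        have h10 := Nat.mod_lt H hs1
        have e3 : s * ((u - 1) / s + (H / s + 1)) = s * ((u - 1) / s) + s * (H / s) + s := by ring
        rw [e3]
        omega
      exact tsub_le_iff_left.2 h5
    rw [e]
    calc _ ≤ ((H / s + 1 : ℕ) : ℝ) := by exact_mod_cast h1
      _ ≤ (H : ℝ) / s + 1 := by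
          push_cast
          have := @Nat.cast_div_le ℝ _ _ _ H s
          linarith
      _ ≤ (H : ℝ) / s + (H : ℝ) / s := by
          have : (1 : ℝ) ≤ (H : ℝ) / s := by rw [le_div_iff₀ hs0]; linarith
          linarith
      _ = _ := by field_simp; ring
  calc _ ≤ ((T.biUnion (fun s => (Ico u (u + H)).filter (fun m => s ∣ m))).card : ℝ) := by
        exact_mod_cast Finset.card_le_card hsub
    _ ≤ ∑ s ∈ T, (((Ico u (u + H)).filter (fun m => s ∣ m)).card : ℝ) := by
        exact_mod_cast Finset.card_biUnion_le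
    _ ≤ ∑ s ∈ T, 2 * H * (s : ℝ)⁻¹ := Finset.sum_le_sum hcard
    _ = 2 * H * ∑ s ∈ T, (s : ℝ)⁻¹ := by rw [Finset.mul_sum]
    _ ≤ _ := mul_le_mul_of_nonneg_left (tail_le q hS0 T hTm) (by positivity)

/-- the upper bound in all intervals of length at least `exp (c0 q)` -/
theorem short_up (c0 : ℝ) (hc0 : 0 < c0) : ∃ C : ℝ, 0 < C ∧ ∃ P : ℕ, ∀ q ≥ P, ∀ H : ℕ,
    Real.exp (c0 * q) ≤ H → ∀ u : ℕ,
    (((Ico u (u + H)).filter (fun n => (roughPart q n).Prime)).card : ℝ) ≤
      C * (Real.log q / q) * H := by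
  classical
  obtain ⟨C0, hC01, hBT⟩ := Pool.Agent.Helper601.brun_titchmarsh
  obtain ⟨C1, hC1, hV⟩ := VV_le_log
  obtain ⟨P, hP⟩ := (((ZZ_le_exp (c := c0 / 8) (by positivity))).and (hV.and
    ((Pool.Agent.N176.GP.grow (c0 / 4) 4 (by positivity)).and
    ((log_nat_tendsto.eventually_ge_atTop 1).and ((Pool.Agent.W66.exp_small (c := c0 / 8) (by positivity)).and
      (eventually_ge_atTop 2)))))).exists_forall_of_atTop
  refine ⟨4 * C0 * C1 / c0 + 2, by positivity, P, fun q hq H hH => ?_⟩
  obtain ⟨hZ, hVq, hg, hlog1, hsm, hq2⟩ := hP q hq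
  have hq2r : (2 : ℝ) ≤ q := by exact_mod_cast hq2
  have hq0 : (0 : ℝ) < q := by linarith
  have hH0 : (0 : ℝ) < H := (Real.exp_pos _).trans_le hH
  have hlq : 0 < Real.log q := by linarith
  -- the case u ≥ 1
  have key : ∀ u : ℕ, 1 ≤ u → (((Ico u (u + H)).filter (fun n => (roughPart q n).Prime)).card : ℝ) ≤
      (4 * C0 * C1 / c0 + 2) * (Real.log q / q) * H := by
    intro u hu
    set S := Real.exp (Real.log H / 2) with hS
    have hS0 : 0 < S := Real.exp_pos _
    have hSS : S * S = H := by
      rw [hS, ← Real.exp_add, add_halves, Real.exp_log hH0]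
    have hlogH : c0 * q ≤ Real.log H := by
      rw [← Real.log_exp (c0 * q)]
      exact Real.log_le_log (Real.exp_pos _) hH
    have hSge : Real.exp (c0 / 2 * q) ≤ S := by
      rw [hS, Real.exp_le_exp]; linarith
    have hS1 : 1 ≤ S := le_trans (Real.one_le_exp (by positivity)) hSge
    have hqS : ((q + 1 : ℕ) : ℝ) ≤ S := by
      push_cast
      have h1 : Real.exp (c0 / 4 * q) ≤ Real.exp (c0 / 2 * q) := by
        rw [Real.exp_le_exp]; nlinarith
      nlinarith
    set A := u with hA
    set B := A + H - 1 with hB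
    have hHpos : 0 < H := by exact_mod_cast hH0
    have e : Ico u (u + H) = Ioc (A - 1) B := by
      ext x
      rw [mem_Ico, mem_Ioc]
      omega
    have hdiv : ∀ s r : ℕ, s ∈ SM q → r.Prime → q < r → s * r / roughPart q (s * r) = s := by
      intro s r hs hr hqr
      rw [roughPart_mul hs hr hqr, Nat.mul_div_cancel _ hr.pos]
    -- the part with a small smooth factor
    have h1 : (((Ioc (A - 1) B).filter (fun n => (roughPart q n).Prime ∧
        ((n / roughPart q n : ℕ) : ℝ) < S)).card : ℝ) ≤ 4 * C0 * H / (c0 * q) * VV q := by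
      have h2 : (((Ioc (A - 1) B).filter (fun n => (roughPart q n).Prime ∧
        ((n / roughPart q n : ℕ) : ℝ) < S)).card : ℝ) =
          ∑ m ∈ (Ioc (A - 1) B).filter (fun m => (roughPart q m).Prime),
            (if ((m / roughPart q m : ℕ) : ℝ) < S then (1 : ℝ) else 0) := by
        rw [← Finset.sum_filter, Finset.filter_filter, Finset.sum_const, nsmul_eq_mul, mul_one]
      rw [h2, sum_rough_eq]
      calc _ ≤ ∑ s ∈ (SMz q (B : ℝ)).filter (fun s : ℕ => (s : ℝ) < S), 4 * C0 * H / (c0 * q) * (s : ℝ)⁻¹ := by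
            rw [Finset.sum_filter]
            refine Finset.sum_le_sum fun s hs => ?_
            have hs' := (mem_SMz (Nat.cast_nonneg _)).1 hs
            have hsn := SM_pos hs'.1
            have hs0 : (0 : ℝ) < s := by exact_mod_cast hsn
            have h3 : ∀ r ∈ (Ioc ((A - 1) / s) (B / s)).filter (fun r => r.Prime ∧ q < r),
                (if ((s * r / roughPart q (s * r) : ℕ) : ℝ) < S then (1 : ℝ) else 0) =
                if (s : ℝ) < S then (1 : ℝ) else 0 := by
              intro r hr
              rw [mem_filter] at hr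
              rw [hdiv s r hs'.1 hr.2.1 hr.2.2]
            rw [Finset.sum_congr rfl h3]
            split_ifs with hsS
            · rw [Finset.sum_const, nsmul_eq_mul, mul_one]
              have hD : B - (A - 1) = H := by omega
              obtain ⟨_, hc2⟩ := count_inner hBT q (A - 1) B s hsn (by omega)
              rw [hD] at hc2
              have hHs : S ≤ (H : ℝ) / s := by
                rw [le_div_iff₀ hs0, ← hSS]
                exact mul_le_mul_of_nonneg_left hsS.le hS0.le
              have hHs1 : 1 ≤ H / s := by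
                rw [Nat.one_le_div_iff hsn]
                have : (1 : ℝ) ≤ (H : ℝ) / s := hS1.trans hHs
                rw [le_div_iff₀ hs0, one_mul] at this
                exact_mod_cast this
              refine (hc2 (by omega)).trans ?_
              have hup : ((H / s + 1 : ℕ) : ℝ) ≤ 2 * (H / s) := by
                push_cast
                have := @Nat.cast_div_le ℝ _ _ _ H s
                have : (1 : ℝ) ≤ (H : ℝ) / s := hS1.trans hHs
                linarith
              have hlow : S ≤ ((H / s + 1 : ℕ) : ℝ) := by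
                have h5 : (H : ℝ) / s < ((H / s : ℕ) : ℝ) + 1 := by
                  rw [div_lt_iff₀ hs0]
                  have := Nat.lt_mul_div_succ H hsn
                  have h6 : (H : ℝ) < ((s * (H / s + 1) : ℕ) : ℝ) := by exact_mod_cast this
                  push_cast at h6
                  linarith
                push_cast
                linarith
              have hlog : c0 * q / 2 ≤ Real.log ((H / s + 1 : ℕ) : ℝ) := by
                calc c0 * q / 2 = Real.log (Real.exp (c0 / 2 * q)) := by rw [Real.log_exp]; ring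
                  _ ≤ Real.log S := Real.log_le_log (Real.exp_pos _) hSge
                  _ ≤ _ := Real.log_le_log hS0 hlow
              have hpL : 0 < c0 * q / 2 := by positivity
              calc C0 * ((H / s + 1 : ℕ) : ℝ) / Real.log ((H / s + 1 : ℕ) : ℝ) ≤
                  C0 * (2 * (H / s)) / (c0 * q / 2) := by
                    gcongr
                _ = _ := by field_simp; ring
            · simp
        _ = 4 * C0 * H / (c0 * q) * ∑ s ∈ (SMz q (B : ℝ)).filter (fun s : ℕ => (s : ℝ) < S), (s : ℝ)⁻¹ := by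
            rw [Finset.mul_sum]
        _ ≤ _ := by
            refine mul_le_mul_of_nonneg_left ?_ (by positivity)
            refine sum_le_VV q _ fun s hs => ?_
            rw [mem_filter, mem_SMz (Nat.cast_nonneg _)] at hs
            exact hs.1.1
    have h2 : (((Ioc (A - 1) B).filter (fun n => (roughPart q n).Prime ∧
        S ≤ ((n / roughPart q n : ℕ) : ℝ))).card : ℝ) ≤ 2 * H * (Real.log q / q) ^ 2 := by
      rw [← e]
      refine (large_smooth_short q u H hu hS1 ?_).trans ?_
      · calc S * ((q + 1 : ℕ) : ℝ) ≤ S * S := mul_le_mul_of_nonneg_left hqS hS0.le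
          _ = H := hSS
      · refine mul_le_mul_of_nonneg_left ?_ (by positivity)
        have h3 : S ^ (-(1 / 2) : ℝ) ≤ Real.exp (-(c0 / 4 * q)) := by
          calc S ^ (-(1 / 2) : ℝ) ≤ (Real.exp (c0 / 2 * q)) ^ (-(1 / 2) : ℝ) :=
                Real.rpow_le_rpow_of_nonpos (Real.exp_pos _) hSge (by norm_num)
            _ = Real.exp (-(c0 / 4 * q)) := by
                rw [← Real.exp_mul]
                congr 1
                ring
        calc S ^ (-(1 / 2) : ℝ) * ZZ q ≤ Real.exp (-(c0 / 4 * q)) * Real.exp (c0 / 8 * q) :=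
              mul_le_mul h3 hZ (ZZ_nonneg q) (Real.exp_pos _).le
          _ = Real.exp (-(c0 / 8 * q)) := by rw [← Real.exp_add]; congr 1; ring
          _ ≤ _ := hsm
    have h3 : (((Ioc (A - 1) B).filter (fun n => (roughPart q n).Prime)).card : ℝ) ≤
        4 * C0 * H / (c0 * q) * VV q + 2 * H * (Real.log q / q) ^ 2 := by
      have hsub : (Ioc (A - 1) B).filter (fun n => (roughPart q n).Prime) ⊆
          (Ioc (A - 1) B).filter (fun n => (roughPart q n).Prime ∧ ((n / roughPart q n : ℕ) : ℝ) < S) ∪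
          (Ioc (A - 1) B).filter (fun n => (roughPart q n).Prime ∧ S ≤ ((n / roughPart q n : ℕ) : ℝ)) := by
        intro n hn
        rw [mem_filter] at hn
        rw [mem_union, mem_filter, mem_filter]
        rcases lt_or_ge ((n / roughPart q n : ℕ) : ℝ) S with h | h
        · left; exact ⟨hn.1, hn.2, h⟩
        · right; exact ⟨hn.1, hn.2, h⟩
      have h4 := (Finset.card_le_card hsub).trans (Finset.card_union_le _ _)
      have h5 : (((Ioc (A - 1) B).filter (fun n => (roughPart q n).Prime)).card : ℝ) ≤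
          (((Ioc (A - 1) B).filter (fun n => (roughPart q n).Prime ∧
            ((n / roughPart q n : ℕ) : ℝ) < S)).card : ℝ) +
          (((Ioc (A - 1) B).filter (fun n => (roughPart q n).Prime ∧
            S ≤ ((n / roughPart q n : ℕ) : ℝ))).card : ℝ) := by exact_mod_cast h4
      linarith
    have hle1 : Real.log q / q ≤ 1 := by
      rw [div_le_one hq0]
      exact (Real.log_le_sub_one_of_pos hq0).trans (by linarith)
    have hqq0 : 0 ≤ Real.log q / q := by positivity
    rw [e]
    calc _ ≤ 4 * C0 * H / (c0 * q) * VV q + 2 * H * (Real.log q / q) ^ 2 := h3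
      _ ≤ 4 * C0 * H / (c0 * q) * (C1 * Real.log q) + 2 * H * (Real.log q / q) := by
          have h6 : (Real.log q / q) ^ 2 ≤ Real.log q / q := by nlinarith
          gcongr
      _ = _ := by field_simp
  intro u
  rcases Nat.eq_zero_or_pos u with hu | hu
  · refine le_trans ?_ (key 1 le_rfl)
    have hsub : (Ico u (u + H)).filter (fun n => (roughPart q n).Prime) ⊆
        (Ico 1 (1 + H)).filter (fun n => (roughPart q n).Prime) := by
      intro n hn
      rw [mem_filter, mem_Ico] at hn ⊢
      have hn0 : n ≠ 0 := by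
        rintro rfl
        have := hn.2
        unfold roughPart at this
        simp [Nat.not_prime_one] at this
      exact ⟨by omega, hn.2⟩
    exact_mod_cast Finset.card_le_card hsub
  · exact key u hu

end Run7.h854.PO
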