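import Mathlib
import Pool.Agent.Run7.h854.PO.Up
import Pool.Agent.N176.SH.Stm

set_option autoImplicit false

/-!
# Shifted digits: upper bounds for one exponent and for two exponents, given the first digits
-/

namespace Run7.h854.PO

open Finset Filter Topology
open Pool.Agent.H305R2 (roughPart log_nat_tendsto)
open Pool.Agent.N176.OW (cell kap)
open Pool.Agent.N176.GP (sum_cells sum_div)
open Pool.Agent.N176.SH

/-- the indicator of the exponent `p`, for the integer `m` of level `p` -/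
noncomputable def Y (c : ℕ → ℤ) (p m : ℕ) : ℝ := if (roughPart p (sh c p m)).Prime then 1 else 0

lemma Y_nonneg (c : ℕ → ℤ) (p m : ℕ) : 0 ≤ Y c p m := by unfold Y; split_ifs <;> norm_num

lemma Y_le_one (c : ℕ → ℤ) (p m : ℕ) : Y c p m ≤ 1 := by unfold Y; split_ifs <;> norm_num

lemma cnt_eq_sum (c : ℕ → ℤ) (b z j p : ℕ) :
    (cnt c b z j p : ℝ) = ∑ n ∈ Ico (j * b ^ (p - z)) ((j + 1) * b ^ (p - z)), Y c p n := by
  unfold cnt Y
  rw [← Finset.sum_filter, Finset.sum_const, nsmul_eq_mul, mul_one]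

/-- one exponent, in all cells of level up to `2 q / 3` -/
theorem cnt_up {b : ℕ} (hb : 2 ≤ b) (c : ℕ → ℤ) : ∃ C : ℝ, 0 < C ∧ ∃ P : ℕ, ∀ q ≥ P, ∀ z : ℕ,
    3 * z ≤ 2 * q → ∀ j : ℕ, (cnt c b z j q : ℝ) ≤ C * (Real.log q / q) * (b : ℝ) ^ (q - z) := by
  classical
  have hL0 : 0 < Real.log b := Real.log_pos (by exact_mod_cast hb)
  obtain ⟨C, hC, P, hP⟩ := short_up (Real.log b / 3) (by positivity)
  refine ⟨C, hC, P, fun q hq z hz j => ?_⟩
  have hH : Real.exp (Real.log b / 3 * q) ≤ ((b ^ (q - z) : ℕ) : ℝ) := by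
    push_cast
    rw [Pool.Agent.N176.GP.bexp hb, Real.exp_le_exp]
    have h1 : ((q - z : ℕ) : ℝ) = (q : ℝ) - z := by
      rw [Nat.cast_sub (by omega)]
    rw [h1]
    have h2 : (3 : ℝ) * z ≤ 2 * q := by exact_mod_cast hz
    nlinarith
  have h3 := hP q hq (b ^ (q - z)) hH ((((j * b ^ (q - z) : ℕ) : ℤ) + c q).toNat)
  push_cast at h3
  refine le_trans ?_ h3
  unfold cnt
  have e1 : (j + 1) * b ^ (q - z) = j * b ^ (q - z) + b ^ (q - z) := by ring
  rw [e1]
  set a := j * b ^ (q - z)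
  set H := b ^ (q - z)
  have hcard : ((Ico a (a + H)).filter (fun m => (roughPart q (sh c q m)).Prime)).card ≤
      ((Ico (((a : ℤ) + c q).toNat) (((a : ℤ) + c q).toNat + H)).filter
        (fun n => (roughPart q n).Prime)).card := by
    refine Finset.card_le_card_of_injOn (fun m => sh c q m) ?_ ?_
    · intro m hm
      rw [mem_coe, mem_filter, mem_Ico] at hm
      rw [mem_coe, mem_filter, mem_Ico]
      refine ⟨?_, hm.2⟩
      change _ ≤ sh c q m ∧ sh c q m < _
      have h0 : sh c q m ≠ 0 := by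
        intro h0
        have := hm.2
        rw [h0] at this
        unfold roughPart at this
        simp [Nat.not_prime_one] at this
      unfold sh at h0 ⊢
      omega
    · intro m hm m' hm' he
      rw [mem_coe, mem_filter, mem_Ico] at hm hm'
      have h0 : sh c q m ≠ 0 := by
        intro h0
        have := hm.2
        rw [h0] at this
        unfold roughPart at this
        simp [Nat.not_prime_one] at this
      simp only [sh] at he h0
      omega
  exact_mod_cast hcard

/-- the sum over a cell of a function of the digits up to the level `q` -/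
lemma sum_level {b : ℕ} (hb : 2 ≤ b) {z q t j : ℕ} (hzq : z ≤ q) (hqt : q ≤ t) (g : ℕ → ℝ) :
    ∑ n ∈ cell b z t j, g (n / b ^ (t - q)) =
      (b : ℝ) ^ (t - q) * ∑ n ∈ Ico (j * b ^ (q - z)) ((j + 1) * b ^ (q - z)), g n := by
  unfold cell
  have e : b ^ (t - z) = b ^ (q - z) * b ^ (t - q) := by rw [← pow_add]; congr 1; omega
  rw [e, ← mul_assoc, ← mul_assoc, sum_div _ _ _ (by positivity) (Nat.mul_le_mul_right _ (Nat.le_succ j)) g]
  push_cast
  rfl

lemma div_div {b t p q n : ℕ} (hpq : p ≤ q) (hqt : q ≤ t) :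
    n / b ^ (t - p) = n / b ^ (t - q) / b ^ (q - p) := by
  rw [Nat.div_div_eq_div_mul, ← pow_add]
  congr 2
  omega

/-- the pairs of distant exponents -/
theorem pair_far {b : ℕ} (hb : 2 ≤ b) (c : ℕ → ℤ) : ∃ C : ℝ, 0 < C ∧ ∃ P : ℕ, ∀ p ≥ P, ∀ q : ℕ,
    2 * p ≤ q + 1 → ∀ z : ℕ, 3 * z ≤ 2 * p → ∀ j : ℕ, ∀ t : ℕ, q ≤ t →
    ∑ n ∈ cell b z t j, Y c p (n / b ^ (t - p)) * Y c q (n / b ^ (t - q)) ≤
      C * (Real.log p / p * (Real.log q / q)) * (b : ℝ) ^ (t - z) := by
  obtain ⟨C, hC, P, hP⟩ := cnt_up hb c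
  refine ⟨C * C, by positivity, max P 2, fun p hp q hq z hz j t ht => ?_⟩
  have hpP : P ≤ p := (le_max_left _ _).trans hp
  have hp2 : 2 ≤ p := (le_max_right _ _).trans hp
  have hzp : z ≤ p := by omega
  have hpq : p ≤ q := by omega
  have h1 : ∑ n ∈ cell b z t j, Y c p (n / b ^ (t - p)) * Y c q (n / b ^ (t - q)) =
      (b : ℝ) ^ (t - q) * ∑ m ∈ Ico (j * b ^ (p - z)) ((j + 1) * b ^ (p - z)),
        Y c p m * (cnt c b p m q : ℝ) := by
    have e1 : ∀ n ∈ cell b z t j, Y c p (n / b ^ (t - p)) * Y c q (n / b ^ (t - q)) =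
        (fun k => Y c p (k / b ^ (q - p)) * Y c q k) (n / b ^ (t - q)) := by
      intro n _
      simp only
      rw [div_div hpq ht]
    refine ((Finset.sum_congr rfl e1).trans (sum_level hb (hzp.trans hpq) ht
      (fun k => Y c p (k / b ^ (q - p)) * Y c q k))).trans ?_
    congr 1
    have e2 : b ^ (q - z) = b ^ (p - z) * b ^ (q - p) := by rw [← pow_add]; congr 1; omega
    rw [e2, ← mul_assoc, ← mul_assoc, sum_cells _ _ _ (Nat.mul_le_mul_right _ (Nat.le_succ j))]
    refine Finset.sum_congr rfl fun m _ => ?_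
    rw [cnt_eq_sum, Finset.mul_sum]
    have e3 : (m + 1) * b ^ (q - p) = m * b ^ (q - p) + b ^ (q - p) := by ring
    rw [e3, Finset.sum_Ico_eq_sum_range]
    have e4 : m * b ^ (q - p) + b ^ (q - p) - m * b ^ (q - p) = b ^ (q - p) := by omega
    rw [e4]
    refine Finset.sum_congr rfl fun r hr => ?_
    rw [mem_range] at hr
    have e5 : (m * b ^ (q - p) + r) / b ^ (q - p) = m := by
      rw [mul_comm, Nat.mul_add_div (by positivity), Nat.div_eq_of_lt hr, add_zero]
    rw [e5]
  rw [h1]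
  have hlp : 0 ≤ Real.log p / p := div_nonneg (Real.log_natCast_nonneg p) (Nat.cast_nonneg p)
  have hlq : 0 ≤ Real.log q / q := div_nonneg (Real.log_natCast_nonneg q) (Nat.cast_nonneg q)
  calc (b : ℝ) ^ (t - q) * ∑ m ∈ Ico (j * b ^ (p - z)) ((j + 1) * b ^ (p - z)),
        Y c p m * (cnt c b p m q : ℝ)
      ≤ (b : ℝ) ^ (t - q) * ∑ m ∈ Ico (j * b ^ (p - z)) ((j + 1) * b ^ (p - z)),
        Y c p m * (C * (Real.log q / q) * (b : ℝ) ^ (q - p)) := by
        refine mul_le_mul_of_nonneg_left (Finset.sum_le_sum fun m _ => ?_) (by positivity)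
        exact mul_le_mul_of_nonneg_left (hP q (hpP.trans hpq) p (by omega) m) (Y_nonneg _ _ _)
    _ = (b : ℝ) ^ (t - q) * ((cnt c b z j p : ℝ) * (C * (Real.log q / q) * (b : ℝ) ^ (q - p))) := by
        rw [cnt_eq_sum, Finset.sum_mul]
    _ ≤ (b : ℝ) ^ (t - q) * ((C * (Real.log p / p) * (b : ℝ) ^ (p - z)) *
        (C * (Real.log q / q) * (b : ℝ) ^ (q - p))) := by
        refine mul_le_mul_of_nonneg_left (mul_le_mul_of_nonneg_right (hP p hpP z hz j) ?_) (by positivity)
        positivity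
    _ = C * C * (Real.log p / p * (Real.log q / q)) *
        ((b : ℝ) ^ (t - q) * ((b : ℝ) ^ (p - z) * (b : ℝ) ^ (q - p))) := by ring
    _ = _ := by
        rw [← pow_add, ← pow_add]
        congr 2
        omega

/-- the pairs of close exponents -/
theorem pair_close (hTU : S_TU) (hRB : S_RB) {b A : ℕ} {c : ℕ → ℤ} (hOk : Ok b A c) :
    ∃ C : ℝ, 0 < C ∧ ∃ P : ℕ, ∀ x ≥ P, ∀ p q : ℕ, x < p → p < q → q ≤ 2 * x → ∀ z : ℕ, A * z ≤ x →
    ∀ j : ℕ, 1 ≤ j → j ≤ b ^ (2 * z) → ∀ t : ℕ, 2 * x ≤ t →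
    ∑ n ∈ cell b z t j, Y c p (n / b ^ (t - p)) * Y c q (n / b ^ (t - q)) ≤
      C * ((Real.log x / x) ^ 2 + (Real.log x / x) / (b : ℝ) ^ (q - p)) * (b : ℝ) ^ (t - z) := by
  classical
  have hb := hOk.hb
  have hA64 := hOk.hA
  have hb0 : (0 : ℝ) < b := by positivity
  obtain ⟨C1, hC1, P1, hP1⟩ := hTU b A c hOk
  obtain ⟨d, hd, P2, hP2⟩ := hRB b A c hOk
  obtain ⟨C3, hC3, P3, hP3⟩ := cnt_up hb c
  obtain ⟨P4, hP4⟩ := ((log_nat_tendsto.eventually_ge_atTop 4).and
    ((Pool.Agent.W66.exp_small (c := d) hd).and (eventually_ge_atTop 2))).exists_forall_of_atTop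
  refine ⟨4 * C1 ^ 2 + 2 * C3 + 1, by positivity, max (max P1 P2) (max P3 P4), ?_⟩
  intro x hx p q hxp hpq hq2 z hz j hj1 hj2 t ht
  have hxP1 : P1 ≤ x := ((le_max_left _ _).trans (le_max_left _ _)).trans hx
  have hxP2 : P2 ≤ x := ((le_max_right _ _).trans (le_max_left _ _)).trans hx
  have hxP3 : P3 ≤ x := ((le_max_left _ _).trans (le_max_right _ _)).trans hx
  have hxP4 : P4 ≤ x := ((le_max_right _ _).trans (le_max_right _ _)).trans hx
  obtain ⟨hlog4, hsm, hx2⟩ := hP4 x hxP4
  have h64 : 64 * z ≤ x := (Nat.mul_le_mul_right z hA64).trans hz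
  have hzp : z ≤ p := by omega
  have hpt : p ≤ t := by omega
  have hqt : q ≤ t := by omega
  have hx0 : (0 : ℝ) < x := by exact_mod_cast (by omega : 0 < x)
  set F : Finset ℕ := {p, q} with hF
  have hFc : F.card = 2 := Finset.card_pair hpq.ne
  have hFm : ∀ s ∈ F, x < s ∧ s ≤ 2 * x := by
    intro s hs
    rw [hF, mem_insert, mem_singleton] at hs
    rcases hs with rfl | rfl <;> omega
  have hFk : ((F.card : ℕ) : ℝ) ^ 2 ≤ Real.log x := by
    rw [hFc]
    norm_num
    linarith
  have hpF : p ∈ F := by rw [hF]; exact mem_insert_self _ _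
  have hqF : q ∈ F := by rw [hF]; exact mem_insert_of_mem (mem_singleton_self _)
  have hmin : ∀ s ∈ F, p ≤ s := by
    intro s hs
    rw [hF, mem_insert, mem_singleton] at hs
    rcases hs with rfl | rfl <;> omega
  set S := Real.exp (x * Real.log b / 8) with hS
  -- the good event
  set G : ℕ → ℕ → Prop := fun r m => ∀ s ∈ F,
    (roughPart s (sh c s ((b ^ (t - p) * m + r) / b ^ (t - s)))).Prime ∧
    ((sh c s ((b ^ (t - p) * m + r) / b ^ (t - s)) /
      roughPart s (sh c s ((b ^ (t - p) * m + r) / b ^ (t - s))) : ℕ) : ℝ) < S with hG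
  set YY : ℕ → ℝ := fun n => Y c p (n / b ^ (t - p)) * Y c q (n / b ^ (t - q)) with hYY
  have hYY1 : ∀ n, YY n ≤ 1 := fun n =>
    mul_le_one₀ (Y_le_one _ _ _) (Y_nonneg _ _ _) (Y_le_one _ _ _)
  have hYY0 : ∀ n, 0 ≤ YY n := fun n => mul_nonneg (Y_nonneg _ _ _) (Y_nonneg _ _ _)
  -- pointwise bound
  have hpt1 : ∀ n, YY n ≤ (if Big c F b t x n then (1 : ℝ) else 0) +
      (if ¬ Big c F b t x n then YY n else 0) := by
    intro n
    by_cases h : Big c F b t x n
    · rw [if_pos h, if_neg (not_not_intro h), add_zero]; exact hYY1 n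
    · rw [if_neg h, if_pos h, zero_add]
  have hbig : ∑ n ∈ cell b z t j, (if Big c F b t x n then (1 : ℝ) else 0) ≤
      Real.exp (-(d * x)) * (b : ℝ) ^ (t - z) := by
    rw [← Finset.sum_filter, Finset.sum_const, nsmul_eq_mul, mul_one]
    exact hP2 x hxP2 F hFm z hz t ht j hj1 hj2
  -- the sum over the others
  have hsplit : ∑ n ∈ cell b z t j, (if ¬ Big c F b t x n then YY n else 0) =
      ∑ r ∈ range (b ^ (t - p)), ∑ m ∈ Ico (j * b ^ (p - z)) ((j + 1) * b ^ (p - z)),
        (if ¬ Big c F b t x (m * b ^ (t - p) + r) then YY (m * b ^ (t - p) + r) else 0) := by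
    unfold cell
    have e : b ^ (t - z) = b ^ (p - z) * b ^ (t - p) := by rw [← pow_add]; congr 1; omega
    rw [e, ← mul_assoc, ← mul_assoc, sum_cells _ _ _ (Nat.mul_le_mul_right _ (Nat.le_succ j)),
      Finset.sum_comm]
  have hnd : ∀ r ∈ range (b ^ (t - p)), ¬ Deg c b t p q r →
      ∑ m ∈ Ico (j * b ^ (p - z)) ((j + 1) * b ^ (p - z)),
        (if ¬ Big c F b t x (m * b ^ (t - p) + r) then YY (m * b ^ (t - p) + r) else 0) ≤
      (C1 * 2 * (Real.log x / x)) ^ 2 * (b : ℝ) ^ (p - z) := by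
    intro r hr hdeg
    rw [mem_range] at hr
    have h1 := hP1 x hxP1 F hFm hFk p hpF hmin z hz t ht r hr (by
      intro s hs s' hs' hss
      rw [hF, mem_insert, mem_singleton] at hs hs'
      rcases hs with rfl | rfl <;> rcases hs' with rfl | rfl
      · omega
      · exact hdeg
      · omega
      · omega) j hj1
    rw [hFc] at h1
    push_cast at h1
    refine le_trans ?_ h1
    rw [Finset.card_filter]
    push_cast
    unfold cell
    refine Finset.sum_le_sum fun m _ => ?_
    by_cases hB : Big c F b t x (m * b ^ (t - p) + r)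
    · rw [if_neg (not_not_intro hB)]
      split_ifs <;> norm_num
    · rw [if_pos hB]
      by_cases hg : ∀ s ∈ F, (roughPart s (sh c s ((b ^ (t - p) * m + r) / b ^ (t - s)))).Prime
      · rw [if_pos]
        · exact hYY1 _
        · intro s hs
          refine ⟨hg s hs, ?_⟩
          by_contra hc
          push Not at hc
          apply hB
          refine ⟨s, hs, ?_, ?_⟩
          · rw [mul_comm m]; exact hg s hs
          · rw [mul_comm m]; exact hc
      · push Not at hg
        obtain ⟨s, hs, hs2⟩ := hg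
        have h0 : YY (m * b ^ (t - p) + r) = 0 := by
          simp only [hYY]
          rw [mul_comm m]
          rw [hF, mem_insert, mem_singleton] at hs
          rcases hs with rfl | rfl
          · unfold Y
            rw [if_neg hs2, zero_mul]
          · unfold Y
            rw [if_neg hs2, mul_zero]
        rw [h0]
        split_ifs <;> norm_num
  have hdg : ∀ r ∈ range (b ^ (t - p)),
      ∑ m ∈ Ico (j * b ^ (p - z)) ((j + 1) * b ^ (p - z)),
        (if ¬ Big c F b t x (m * b ^ (t - p) + r) then YY (m * b ^ (t - p) + r) else 0) ≤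
      C3 * (Real.log p / p) * (b : ℝ) ^ (p - z) := by
    intro r hr
    rw [mem_range] at hr
    refine le_trans ?_ (hP3 p (by omega) z (by omega) j)
    rw [cnt_eq_sum]
    refine Finset.sum_le_sum fun m _ => ?_
    have e5 : (m * b ^ (t - p) + r) / b ^ (t - p) = m := by
      rw [mul_comm, Nat.mul_add_div (by positivity), Nat.div_eq_of_lt hr, add_zero]
    have h6 : YY (m * b ^ (t - p) + r) ≤ Y c p m := by
      simp only [hYY]
      rw [e5]
      exact mul_le_of_le_one_right (Y_nonneg _ _ _) (Y_le_one _ _ _)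
    have h7 : 0 ≤ Y c p m := Y_nonneg _ _ _
    split_ifs <;> assumption
  have hdcard : (((range (b ^ (t - p))).filter (fun r => Deg c b t p q r)).card : ℝ) ≤
      (b : ℝ) ^ (t - q) := by
    set v : ℤ := (b : ℤ) ^ (q - p) * c p - c q with hv
    have hsub : (range (b ^ (t - p))).filter (fun r => Deg c b t p q r) ⊆
        Ico (v.toNat * b ^ (t - q)) (v.toNat * b ^ (t - q) + b ^ (t - q)) := by
      intro r hr
      rw [mem_filter, mem_range] at hr
      obtain ⟨hr1, hr2⟩ := hr
      unfold Deg at hr2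
      rw [Nat.div_eq_of_lt hr1] at hr2
      have h1 : ((r / b ^ (t - q) : ℕ) : ℤ) = v := by
        rw [hv]
        push_cast at hr2 ⊢
        linarith
      have h2 : r / b ^ (t - q) = v.toNat := by rw [← h1, Int.toNat_natCast]
      rw [mem_Ico, ← h2]
      have h3 : 0 < b ^ (t - q) := by positivity
      exact ⟨Nat.div_mul_le_self _ _, Nat.lt_div_mul_add h3⟩
    have h1 := Finset.card_le_card hsub
    rw [Nat.card_Ico, Nat.add_sub_cancel_left] at h1
    exact_mod_cast h1
  have hmain : ∑ n ∈ cell b z t j, (if ¬ Big c F b t x n then YY n else 0) ≤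
      (b : ℝ) ^ (t - p) * ((C1 * 2 * (Real.log x / x)) ^ 2 * (b : ℝ) ^ (p - z)) +
      (b : ℝ) ^ (t - q) * (C3 * (Real.log p / p) * (b : ℝ) ^ (p - z)) := by
    rw [hsplit, ← Finset.sum_filter_add_sum_filter_not (range (b ^ (t - p))) (fun r => ¬ Deg c b t p q r)]
    have hlp : 0 ≤ Real.log p / p := div_nonneg (Real.log_natCast_nonneg p) (Nat.cast_nonneg p)
    refine add_le_add ?_ ?_
    · calc _ ≤ ∑ r ∈ (range (b ^ (t - p))).filter (fun r => ¬ Deg c b t p q r),
            (C1 * 2 * (Real.log x / x)) ^ 2 * (b : ℝ) ^ (p - z) := by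
            refine Finset.sum_le_sum fun r hr => ?_
            rw [mem_filter] at hr
            exact hnd r hr.1 hr.2
        _ ≤ ∑ r ∈ range (b ^ (t - p)), (C1 * 2 * (Real.log x / x)) ^ 2 * (b : ℝ) ^ (p - z) :=
            Finset.sum_le_sum_of_subset_of_nonneg (filter_subset _ _) fun _ _ _ => by positivity
        _ = _ := by rw [Finset.sum_const, card_range, nsmul_eq_mul]; push_cast; rfl
    · calc _ ≤ ∑ r ∈ (range (b ^ (t - p))).filter (fun r => ¬ ¬ Deg c b t p q r),
            C3 * (Real.log p / p) * (b : ℝ) ^ (p - z) := by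
            refine Finset.sum_le_sum fun r hr => ?_
            rw [mem_filter] at hr
            exact hdg r hr.1
        _ = (((range (b ^ (t - p))).filter (fun r => Deg c b t p q r)).card : ℝ) *
            (C3 * (Real.log p / p) * (b : ℝ) ^ (p - z)) := by
            rw [Finset.sum_const, nsmul_eq_mul]
            simp only [not_not]
        _ ≤ _ := mul_le_mul_of_nonneg_right hdcard (by positivity)
  -- comparison of the logarithms
  have hpx : (x : ℝ) ≤ p := by exact_mod_cast hxp.le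
  have hp0 : (0 : ℝ) < p := by linarith
  have hp2x : (p : ℝ) ≤ 2 * x := by exact_mod_cast (by omega : p ≤ 2 * x)
  have hlx0 : 0 < Real.log x := by linarith
  have hlogp : Real.log p / p ≤ 2 * (Real.log x / x) :=
    (Pool.Agent.N176.GP.log_div_le hx2 hxp (by omega)).trans (le_of_eq (by ring))
  have eb1 : (b : ℝ) ^ (t - p) * (b : ℝ) ^ (p - z) = (b : ℝ) ^ (t - z) := by
    rw [← pow_add]; congr 1; omega
  have eb2 : (b : ℝ) ^ (t - q) * (b : ℝ) ^ (p - z) = (b : ℝ) ^ (t - z) / (b : ℝ) ^ (q - p) := by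
    rw [eq_div_iff (by positivity), ← pow_add, ← pow_add]; congr 1; omega
  have hlx : 0 ≤ Real.log x / x := by positivity
  calc ∑ n ∈ cell b z t j, Y c p (n / b ^ (t - p)) * Y c q (n / b ^ (t - q))
      ≤ ∑ n ∈ cell b z t j, ((if Big c F b t x n then (1 : ℝ) else 0) +
        (if ¬ Big c F b t x n then YY n else 0)) := Finset.sum_le_sum fun n _ => hpt1 n
    _ ≤ Real.exp (-(d * x)) * (b : ℝ) ^ (t - z) +
        ((b : ℝ) ^ (t - p) * ((C1 * 2 * (Real.log x / x)) ^ 2 * (b : ℝ) ^ (p - z)) +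
        (b : ℝ) ^ (t - q) * (C3 * (Real.log p / p) * (b : ℝ) ^ (p - z))) := by
        rw [Finset.sum_add_distrib]
        exact add_le_add hbig hmain
    _ = (Real.exp (-(d * x)) + 4 * C1 ^ 2 * (Real.log x / x) ^ 2 +
        C3 * (Real.log p / p) / (b : ℝ) ^ (q - p)) * (b : ℝ) ^ (t - z) := by
        have e1 : (b : ℝ) ^ (t - p) * ((C1 * 2 * (Real.log x / x)) ^ 2 * (b : ℝ) ^ (p - z)) =
            4 * C1 ^ 2 * (Real.log x / x) ^ 2 * ((b : ℝ) ^ (t - p) * (b : ℝ) ^ (p - z)) := by ring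
        have e2 : (b : ℝ) ^ (t - q) * (C3 * (Real.log p / p) * (b : ℝ) ^ (p - z)) =
            C3 * (Real.log p / p) * ((b : ℝ) ^ (t - q) * (b : ℝ) ^ (p - z)) := by ring
        rw [e1, e2, eb1, eb2]
        ring
    _ ≤ _ := by
        refine mul_le_mul_of_nonneg_right ?_ (by positivity)
        have h1 : C3 * (Real.log p / p) / (b : ℝ) ^ (q - p) ≤
            C3 * (2 * (Real.log x / x)) / (b : ℝ) ^ (q - p) := by gcongr
        have h2 : 0 ≤ (Real.log x / x) / (b : ℝ) ^ (q - p) := by positivity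
        have h3 : C3 * (2 * (Real.log x / x)) / (b : ℝ) ^ (q - p) =
            2 * C3 * ((Real.log x / x) / (b : ℝ) ^ (q - p)) := by ring
        rw [h3] at h1
        have h4 : 0 ≤ (Real.log x / x) ^ 2 := by positivity
        nlinarith [sq_nonneg C1, mul_nonneg (sq_nonneg C1) h2, mul_nonneg hC3.le h4]

end Run7.h854.PO
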