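import Mathlib
import Pool.Agent.Run7.h854.PO.Pair
import Pool.Agent.N607.SH.GC

set_option autoImplicit false

/-!
# Shifted digits: all pairs of exponents; the mean over the cells
-/

namespace Run7.h854.PO

open Finset Filter Topology
open Pool.Agent.H305R2 (roughPart log_nat_tendsto)
open Pool.Agent.N176.OW (cell kap S_FM)
open Pool.Agent.N176.SH

/-- the bound for two exponents -/
noncomputable def WW2 (b p q : ℕ) : ℝ :=
  Real.log p / p * (Real.log q / q) + Real.log p / p / (b : ℝ) ^ (q - p)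

lemma lg_nonneg (p : ℕ) : 0 ≤ Real.log p / p := div_nonneg (Real.log_natCast_nonneg p) (Nat.cast_nonneg p)

lemma WW2_nonneg (b p q : ℕ) : 0 ≤ WW2 b p q := by
  have h1 := lg_nonneg p
  have h2 := lg_nonneg q
  unfold WW2
  positivity

theorem pair_all (hTU : S_TU) (hRB : S_RB) {b A : ℕ} {c : ℕ → ℤ} (hOk : Ok b A c) :
    ∃ C : ℝ, 0 < C ∧ ∃ P : ℕ, ∀ p ≥ P, ∀ q > p, ∀ z : ℕ, 2 * A * z ≤ p → ∀ j : ℕ, 1 ≤ j →
    j ≤ b ^ (2 * z) → ∀ t > q,
    ∑ n ∈ cell b z t j, Y c p (n / b ^ (t - p)) * Y c q (n / b ^ (t - q)) ≤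
      C * WW2 b p q * (b : ℝ) ^ (t - z) := by
  have hb := hOk.hb
  have hA64 := hOk.hA
  have hb0 : (0 : ℝ) < b := by positivity
  obtain ⟨C1, hC1, P1, hP1⟩ := pair_far hb c
  obtain ⟨C2, hC2, P2, hP2⟩ := pair_close hTU hRB hOk
  refine ⟨C1 + 8 * C2, by positivity, max P1 (2 * P2 + 4), ?_⟩
  intro p hp q hpq z hz j hj1 hj2 t ht
  have hpP1 : P1 ≤ p := (le_max_left _ _).trans hp
  have hpP2 : 2 * P2 + 4 ≤ p := (le_max_right _ _).trans hp
  have h64 : 64 * z ≤ A * z := Nat.mul_le_mul_right z hA64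
  have hAz : 2 * (A * z) ≤ p := by rw [← mul_assoc]; exact hz
  have hlp := lg_nonneg p
  have hlq := lg_nonneg q
  have hp0 : (0 : ℝ) < p := by exact_mod_cast (by omega : 0 < p)
  have hq0 : (0 : ℝ) < q := by exact_mod_cast (by omega : 0 < q)
  have hbt : 0 ≤ (b : ℝ) ^ (t - z) := by positivity
  have hw : 0 ≤ Real.log p / p / (b : ℝ) ^ (q - p) := by positivity
  rcases le_or_gt (2 * p) (q + 1) with h | h
  · refine (hP1 p hpP1 q h z (by omega) j t ht.le).trans (mul_le_mul_of_nonneg_right ?_ hbt)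
    unfold WW2
    nlinarith [mul_nonneg hlp hlq, mul_nonneg hC2.le (mul_nonneg hlp hlq), mul_nonneg hC1.le hw,
      mul_nonneg hC2.le hw]
  · set x := (q + 1) / 2 with hx
    have hx1 : x < p := by omega
    have hx2 : q ≤ 2 * x := by omega
    have hx3 : 2 * x ≤ t := by omega
    have hx4 : A * z ≤ x := by omega
    refine (hP2 x (by omega) p q hx1 hpq hx2 z hx4 j hj1 hj2 t hx3).trans
      (mul_le_mul_of_nonneg_right ?_ hbt)
    have hx0 : (0 : ℝ) < x := by exact_mod_cast (by omega : 0 < x)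
    have hxp : (x : ℝ) ≤ p := by exact_mod_cast hx1.le
    have hpx : (p : ℝ) ≤ 2 * x := by exact_mod_cast (by omega : p ≤ 2 * x)
    have hlx : 0 ≤ Real.log x := Real.log_natCast_nonneg x
    have hlxp : Real.log x ≤ Real.log p := Real.log_le_log hx0 hxp
    have hlpq : Real.log p ≤ Real.log q := Real.log_le_log hp0 (by exact_mod_cast hpq.le)
    have h1 : Real.log x / x ≤ 2 * (Real.log p / p) := by
      rw [div_le_iff₀ hx0]
      calc Real.log x ≤ Real.log p := hlxp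
        _ ≤ Real.log p * (2 * x / p) :=
          le_mul_of_one_le_right (hlx.trans hlxp) (by rw [le_div_iff₀ hp0]; linarith)
        _ = _ := by field_simp
    have h2 : Real.log p / p ≤ 2 * (Real.log q / q) := by
      have hq2 : (q : ℝ) ≤ 2 * p := by exact_mod_cast (by omega : q ≤ 2 * p)
      rw [div_le_iff₀ hp0]
      calc Real.log p ≤ Real.log q := hlpq
        _ ≤ Real.log q * (2 * p / q) :=
          le_mul_of_one_le_right ((hlx.trans hlxp).trans hlpq) (by rw [le_div_iff₀ hq0]; linarith)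
        _ = _ := by field_simp
    have h3 : (Real.log x / x) ^ 2 ≤ 8 * (Real.log p / p * (Real.log q / q)) := by
      have h4 : 0 ≤ Real.log x / x := by positivity
      calc (Real.log x / x) ^ 2 ≤ (2 * (Real.log p / p)) ^ 2 := by gcongr
        _ = 4 * (Real.log p / p) * (Real.log p / p) := by ring
        _ ≤ 4 * (Real.log p / p) * (2 * (Real.log q / q)) := by gcongr
        _ = _ := by ring
    have h5 : (Real.log x / x) / (b : ℝ) ^ (q - p) ≤ 2 * (Real.log p / p / (b : ℝ) ^ (q - p)) := by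
      rw [← mul_div_assoc]
      gcongr
    unfold WW2
    nlinarith [mul_nonneg hlp hlq, mul_nonneg hC1.le (mul_nonneg hlp hlq), mul_nonneg hC1.le hw,
      mul_nonneg hC2.le hw, mul_le_mul_of_nonneg_left h3 hC2.le, mul_le_mul_of_nonneg_left h5 hC2.le]

/-- the mean over the cells of level `z ≤ κ0 q` -/
theorem fm_sh (hFM : S_FM) {b A : ℕ} {c : ℕ → ℤ} (hOk : Ok b A c) :
    ∃ κ0 K : ℝ, 0 < κ0 ∧ κ0 < 1 / 2 ∧ 0 < K ∧ ∀ m0 : ℕ, ∃ P : ℕ, ∀ q ≥ P, ∀ z : ℕ, m0 ≤ z →
    (z : ℝ) ≤ κ0 * q → q ≤ b ^ z →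
    ∑ j ∈ Ico (b ^ (z - m0)) (b ^ (z + m0)),
      |(cnt c b z j q : ℝ) / (b : ℝ) ^ (q - z) - kap b * (Real.log q / q)| ≤
    (b : ℝ) ^ (z + m0) * (K / q) := by
  have hb := hOk.hb
  have hA64 := hOk.hA
  have hb0 : (0 : ℝ) < b := by positivity
  have hA0 : (0 : ℝ) < A := by exact_mod_cast (by omega : 0 < A)
  obtain ⟨κ1, K1, hκ1, hK1, h⟩ := hFM b hb
  refine ⟨min κ1 (1 / (4 * A)), K1 + 2, by positivity, ?_, by positivity, fun m0 => ?_⟩
  · refine (min_le_right _ _).trans_lt ?_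
    rw [div_lt_div_iff₀ (by positivity) (by norm_num)]
    have : (64 : ℝ) ≤ A := by exact_mod_cast hA64
    linarith
  obtain ⟨P1, hP1⟩ := h m0
  have hlim : Tendsto (fun q : ℕ => (Real.log q) ^ 2 / q) atTop (𝓝 0) := by
    have h1 := (Real.isLittleO_pow_log_id_atTop (n := 2)).tendsto_div_nhds_zero
    have h2 := h1.comp tendsto_natCast_atTop_atTop
    exact h2
  obtain ⟨P2, hP2⟩ := eventually_atTop.1 (hlim.eventually_le_const (show (0 : ℝ) < 1 by norm_num))
  refine ⟨max (max P1 P2) (A + 1), fun q hq z hm0 hz hqz => ?_⟩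
  have hqP1 : P1 ≤ q := ((le_max_left _ _).trans (le_max_left _ _)).trans hq
  have hqP2 : P2 ≤ q := ((le_max_right _ _).trans (le_max_left _ _)).trans hq
  have hqA : A + 1 ≤ q := (le_max_right _ _).trans hq
  have hq0 : (0 : ℝ) < q := by exact_mod_cast (by omega : 0 < q)
  have hz1 : (z : ℝ) ≤ κ1 * q := hz.trans (mul_le_mul_of_nonneg_right (min_le_left _ _) hq0.le)
  have hz2 : A * z ≤ q := by
    have h1 : (z : ℝ) ≤ 1 / (4 * A) * q := hz.trans (mul_le_mul_of_nonneg_right (min_le_right _ _) hq0.le)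
    have h2 : (A : ℝ) * z ≤ q := by
      calc (A : ℝ) * z ≤ A * (1 / (4 * A) * q) := mul_le_mul_of_nonneg_left h1 hA0.le
        _ = q / 4 := by field_simp
        _ ≤ q := by linarith
    exact_mod_cast h2
  have h1 := hP1 q hqP1 z hm0 hz1
  have h2 := hP2 q hqP2
  have hbz : (0 : ℝ) < (b : ℝ) ^ z := by positivity
  have hinv : 1 / (b : ℝ) ^ z ≤ 1 / q := by
    apply one_div_le_one_div_of_le hq0
    exact_mod_cast hqz
  have hterm : ∀ j ∈ Ico (b ^ (z - m0)) (b ^ (z + m0)),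
      |(cnt c b z j q : ℝ) / (b : ℝ) ^ (q - z) - kap b * (Real.log q / q)| ≤
      max 0 (|(Pool.Agent.N176.GP.cnt b z j q : ℝ) / (b : ℝ) ^ (q - z) -
        Real.exp Real.eulerMascheroniConstant / Real.log b * (Real.log q / q)| - K1 / q) +
        (K1 + 1) / q := by
    intro j hj
    rw [mem_Ico] at hj
    have hj1 : 1 ≤ j := by
      have : 1 ≤ b ^ (z - m0) := Nat.one_le_pow _ _ (by omega)
      omega
    have h3 := Pool.Agent.N607.SH.cnt_shift hOk hj1 hz2 (by omega)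
    have h4 := le_max_right 0 (|(Pool.Agent.N176.GP.cnt b z j q : ℝ) / (b : ℝ) ^ (q - z) -
        Real.exp Real.eulerMascheroniConstant / Real.log b * (Real.log q / q)| - K1 / q)
    have h5 : |(cnt c b z j q : ℝ) / (b : ℝ) ^ (q - z) - kap b * (Real.log q / q)| ≤
        |(cnt c b z j q : ℝ) / (b : ℝ) ^ (q - z) -
          (Pool.Agent.N176.GP.cnt b z j q : ℝ) / (b : ℝ) ^ (q - z)| +
        |(Pool.Agent.N176.GP.cnt b z j q : ℝ) / (b : ℝ) ^ (q - z) - kap b * (Real.log q / q)| :=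
      abs_sub_le _ _ _
    have h6 : (K1 + 1) / (q : ℝ) = K1 / q + 1 / q := by ring
    unfold kap at h5 ⊢
    rw [h6]
    linarith
  have hcard : (((Ico (b ^ (z - m0)) (b ^ (z + m0))).card : ℕ) : ℝ) ≤ (b : ℝ) ^ (z + m0) := by
    rw [Nat.card_Ico]
    have : ((b ^ (z + m0) - b ^ (z - m0) : ℕ) : ℝ) ≤ ((b ^ (z + m0) : ℕ) : ℝ) := by
      exact_mod_cast Nat.sub_le _ _
    push_cast at this ⊢
    exact this
  have hpow : (b : ℝ) ^ z ≤ (b : ℝ) ^ (z + m0) :=
    pow_le_pow_right₀ (by exact_mod_cast (by omega : 1 ≤ b)) (by omega)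
  calc _ ≤ ∑ j ∈ Ico (b ^ (z - m0)) (b ^ (z + m0)),
        (max 0 (|(Pool.Agent.N176.GP.cnt b z j q : ℝ) / (b : ℝ) ^ (q - z) -
        Real.exp Real.eulerMascheroniConstant / Real.log b * (Real.log q / q)| - K1 / q) +
        (K1 + 1) / q) := Finset.sum_le_sum hterm
    _ ≤ (b : ℝ) ^ z * ((Real.log q) ^ 2 / q ^ 2) + (b : ℝ) ^ (z + m0) * ((K1 + 1) / q) := by
        rw [Finset.sum_add_distrib, Finset.sum_const, nsmul_eq_mul]
        exact add_le_add h1 (mul_le_mul_of_nonneg_right hcard (by positivity))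
    _ ≤ (b : ℝ) ^ (z + m0) * (1 / q) + (b : ℝ) ^ (z + m0) * ((K1 + 1) / q) := by
        have h3 : (Real.log q) ^ 2 / (q : ℝ) ^ 2 ≤ 1 / q := by
          have e : (Real.log q) ^ 2 / (q : ℝ) ^ 2 = (Real.log q) ^ 2 / q * (1 / q) := by
            field_simp
          rw [e]
          exact mul_le_of_le_one_left (by positivity) h2
        gcongr
    _ = _ := by ring

end Run7.h854.PO
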