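import Mathlib
import Pool.Agent.Run7.h854.PO.Mean

set_option autoImplicit false

/-!
# The Laplace functional of the exponents in a finite set of levels
-/

namespace Run7.h854.PO

open Finset Filter Topology
open Pool.Agent.H305R2 (roughPart log_nat_tendsto)
open Pool.Agent.N176.OW (cell kap S_FM)
open Pool.Agent.N176.GP (sum_cells)
open Pool.Agent.N176.SH

/-- the integral over the amplitudes in `(a1 / b ^ m, a2 / b ^ m]` of a function of the integer of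
level `t` -/
noncomputable def Av (b m a1 a2 t : ℕ) (f : ℕ → ℝ) : ℝ :=
  (∑ n ∈ Ico (a1 * b ^ (t - m)) (a2 * b ^ (t - m)), f n) / (b : ℝ) ^ t

lemma Av_mono {b m a1 a2 t : ℕ} {f g : ℕ → ℝ} (h : ∀ n, f n ≤ g n) :
    Av b m a1 a2 t f ≤ Av b m a1 a2 t g := by
  unfold Av
  exact div_le_div_of_nonneg_right (Finset.sum_le_sum fun n _ => h n) (by positivity)

lemma Av_add {b m a1 a2 t : ℕ} (f g : ℕ → ℝ) :
    Av b m a1 a2 t (fun n => f n + g n) = Av b m a1 a2 t f + Av b m a1 a2 t g := by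
  unfold Av
  rw [Finset.sum_add_distrib, add_div]

lemma Av_sub {b m a1 a2 t : ℕ} (f g : ℕ → ℝ) :
    Av b m a1 a2 t (fun n => f n - g n) = Av b m a1 a2 t f - Av b m a1 a2 t g := by
  unfold Av
  rw [Finset.sum_sub_distrib, sub_div]

lemma Av_mul {b m a1 a2 t : ℕ} (r : ℝ) (f : ℕ → ℝ) :
    Av b m a1 a2 t (fun n => r * f n) = r * Av b m a1 a2 t f := by
  unfold Av
  rw [← Finset.mul_sum, mul_div_assoc]

lemma Av_sum {b m a1 a2 t : ℕ} {ι : Type*} (s : Finset ι) (f : ι → ℕ → ℝ) :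
    Av b m a1 a2 t (fun n => ∑ i ∈ s, f i n) = ∑ i ∈ s, Av b m a1 a2 t (f i) := by
  unfold Av
  rw [Finset.sum_comm, Finset.sum_div]

lemma Av_abs {b m a1 a2 t : ℕ} (f : ℕ → ℝ) :
    |Av b m a1 a2 t f| ≤ Av b m a1 a2 t (fun n => |f n|) := by
  unfold Av
  rw [abs_div, abs_of_nonneg (show (0 : ℝ) ≤ (b : ℝ) ^ t by positivity)]
  exact div_le_div_of_nonneg_right (Finset.abs_sum_le_sum_abs _ _) (by positivity)

lemma Av_nonneg {b m a1 a2 t : ℕ} {f : ℕ → ℝ} (h : ∀ n, 0 ≤ f n) : 0 ≤ Av b m a1 a2 t f := by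
  unfold Av
  exact div_nonneg (Finset.sum_nonneg fun n _ => h n) (by positivity)

lemma Av_one {b m a1 a2 t : ℕ} (hb : 2 ≤ b) (hmt : m ≤ t) (h12 : a1 ≤ a2) :
    Av b m a1 a2 t (fun _ => 1) = ((a2 : ℝ) - a1) / (b : ℝ) ^ m := by
  unfold Av
  have hb0 : (0 : ℝ) < b := by positivity
  rw [Finset.sum_const, Nat.card_Ico, nsmul_eq_mul, mul_one, ← Nat.sub_mul]
  push_cast
  rw [Nat.cast_sub h12, div_eq_div_iff (by positivity) (by positivity)]
  have : (b : ℝ) ^ t = (b : ℝ) ^ (t - m) * (b : ℝ) ^ m := by rw [← pow_add]; congr 1; omega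
  rw [this]
  ring

lemma Av_cells {b m a1 a2 z t : ℕ} (hmz : m ≤ z) (hzt : z ≤ t) (h12 : a1 ≤ a2)
    (f : ℕ → ℝ) :
    Av b m a1 a2 t f =
      (∑ j ∈ Ico (a1 * b ^ (z - m)) (a2 * b ^ (z - m)), ∑ n ∈ cell b z t j, f n) / (b : ℝ) ^ t := by
  unfold Av
  congr 1
  have e : b ^ (t - m) = b ^ (z - m) * b ^ (t - z) := by rw [← pow_add]; congr 1; omega
  rw [e, ← mul_assoc, ← mul_assoc, sum_cells _ _ _ (Nat.mul_le_mul_right _ h12)]
  refine Finset.sum_congr rfl fun j _ => ?_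
  unfold cell
  rw [sum_cells _ _ _ (Nat.le_succ j), Nat.Ico_succ_singleton, Finset.sum_singleton]

/-- one exponent -/
theorem avY {b : ℕ} (hb : 2 ≤ b) (c : ℕ → ℤ) (m a1 a2 : ℕ) (h12 : a1 ≤ a2) : ∃ C : ℝ, 0 < C ∧
    ∃ P : ℕ, ∀ q ≥ P, ∀ t ≥ q,
    Av b m a1 a2 t (fun n => Y c q (n / b ^ (t - q))) ≤ C * (Real.log q / q) := by
  obtain ⟨C, hC, P, hP⟩ := cnt_up hb c
  have hb0 : (0 : ℝ) < b := by positivity
  refine ⟨C * (a2 + 1), by positivity, max P (2 * m), fun q hq t ht => ?_⟩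
  have hqP : P ≤ q := (le_max_left _ _).trans hq
  have hqm : 2 * m ≤ q := (le_max_right _ _).trans hq
  have hlq := lg_nonneg q
  rw [Av_cells le_rfl (show m ≤ t by omega) h12, Nat.sub_self, pow_zero, mul_one, mul_one,
    div_le_iff₀ (by positivity)]
  have h1 : ∀ j ∈ Ico a1 a2, ∑ n ∈ cell b m t j, Y c q (n / b ^ (t - q)) ≤
      C * (Real.log q / q) * (b : ℝ) ^ t := by
    intro j _
    rw [sum_level hb (show m ≤ q by omega) ht, ← cnt_eq_sum]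
    calc (b : ℝ) ^ (t - q) * (cnt c b m j q : ℝ) ≤
        (b : ℝ) ^ (t - q) * (C * (Real.log q / q) * (b : ℝ) ^ (q - m)) :=
          mul_le_mul_of_nonneg_left (hP q hqP m (by omega) j) (by positivity)
      _ = C * (Real.log q / q) * (b : ℝ) ^ (t - m) := by
          have : (b : ℝ) ^ (t - m) = (b : ℝ) ^ (t - q) * (b : ℝ) ^ (q - m) := by
            rw [← pow_add]; congr 1; omega
          rw [this]; ring
      _ ≤ _ := by
          refine mul_le_mul_of_nonneg_left ?_ (by positivity)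
          exact pow_le_pow_right₀ (by exact_mod_cast (by omega : 1 ≤ b)) (by omega)
  refine (Finset.sum_le_sum h1).trans ?_
  rw [Finset.sum_const, Nat.card_Ico, nsmul_eq_mul]
  have h2 : ((a2 - a1 : ℕ) : ℝ) ≤ (a2 : ℝ) + 1 := by
    have : ((a2 - a1 : ℕ) : ℝ) ≤ (a2 : ℝ) := by exact_mod_cast Nat.sub_le _ _
    linarith
  calc ((a2 - a1 : ℕ) : ℝ) * (C * (Real.log q / q) * (b : ℝ) ^ t) ≤
      ((a2 : ℝ) + 1) * (C * (Real.log q / q) * (b : ℝ) ^ t) :=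
        mul_le_mul_of_nonneg_right h2 (by positivity)
    _ = _ := by ring

/-- two exponents -/
theorem avYY (hTU : S_TU) (hRB : S_RB) {b A : ℕ} {c : ℕ → ℤ} (hOk : Ok b A c) (m a1 a2 : ℕ)
    (h1 : 1 ≤ a1) (h12 : a1 ≤ a2) : ∃ C : ℝ, 0 < C ∧ ∃ P : ℕ, ∀ p ≥ P, ∀ q > p, ∀ t > q,
    Av b m a1 a2 t (fun n => Y c p (n / b ^ (t - p)) * Y c q (n / b ^ (t - q))) ≤
      C * WW2 b p q := by
  obtain ⟨C, hC, P, hP⟩ := pair_all hTU hRB hOk
  have hb := hOk.hb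
  have hb0 : (0 : ℝ) < b := by positivity
  refine ⟨C * (a2 + 1), by positivity, max P (2 * A * (m + a2) + m + a2), fun p hp q hpq t ht => ?_⟩
  have hpP : P ≤ p := (le_max_left _ _).trans hp
  have hpm : 2 * A * (m + a2) + m + a2 ≤ p := (le_max_right _ _).trans hp
  have hw := WW2_nonneg b p q
  rw [Av_cells (Nat.le_add_right m a2) (show m + a2 ≤ t by omega) h12, Nat.add_sub_cancel_left,
    div_le_iff₀ (by positivity)]
  have h3 : ∀ j ∈ Ico (a1 * b ^ a2) (a2 * b ^ a2), ∑ n ∈ cell b (m + a2) t j,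
      Y c p (n / b ^ (t - p)) * Y c q (n / b ^ (t - q)) ≤
      C * WW2 b p q * (b : ℝ) ^ (t - (m + a2)) := by
    intro j hj
    rw [mem_Ico] at hj
    have hj1 : 1 ≤ j := by
      have : 1 ≤ a1 * b ^ a2 := Nat.mul_pos h1 (by positivity)
      omega
    have hj2 : j ≤ b ^ (2 * (m + a2)) := by
      have h4 : a2 < b ^ a2 := Nat.lt_pow_self (by omega)
      have h5 : a2 * b ^ a2 ≤ b ^ a2 * b ^ a2 := Nat.mul_le_mul_right _ h4.le
      have h6 : b ^ a2 * b ^ a2 ≤ b ^ (2 * (m + a2)) := by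
        rw [← pow_add]
        exact Nat.pow_le_pow_right (by omega) (by omega)
      omega
    exact hP p hpP q hpq (m + a2) (by omega) j hj1 hj2 t ht
  refine (Finset.sum_le_sum h3).trans ?_
  rw [Finset.sum_const, Nat.card_Ico, nsmul_eq_mul, ← Nat.sub_mul]
  push_cast
  have h4 : ((a2 - a1 : ℕ) : ℝ) ≤ (a2 : ℝ) + 1 := by
    have : ((a2 - a1 : ℕ) : ℝ) ≤ (a2 : ℝ) := by exact_mod_cast Nat.sub_le _ _
    linarith
  have h5 : (b : ℝ) ^ a2 * (b : ℝ) ^ (t - (m + a2)) ≤ (b : ℝ) ^ t := by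
    rw [← pow_add]
    exact pow_le_pow_right₀ (by exact_mod_cast (by omega : 1 ≤ b)) (by omega)
  calc ((a2 - a1 : ℕ) : ℝ) * (b : ℝ) ^ a2 * (C * WW2 b p q * (b : ℝ) ^ (t - (m + a2))) =
      ((a2 - a1 : ℕ) : ℝ) * (C * WW2 b p q) * ((b : ℝ) ^ a2 * (b : ℝ) ^ (t - (m + a2))) := by ring
    _ ≤ ((a2 : ℝ) + 1) * (C * WW2 b p q) * (b : ℝ) ^ t := by gcongr
    _ = _ := by ring

/-- the Laplace functional -/
noncomputable def Phi (c : ℕ → ℤ) (w : ℕ → ℝ) (T : Finset ℕ) (b t n : ℕ) : ℝ :=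
  ∏ p ∈ T, (1 - w p * Y c p (n / b ^ (t - p)))

lemma fac_mem {c : ℕ → ℤ} {w : ℕ → ℝ} (hw : ∀ p, 0 ≤ w p ∧ w p ≤ 1) (p k : ℕ) :
    0 ≤ 1 - w p * Y c p k ∧ 1 - w p * Y c p k ≤ 1 ∧ w p * Y c p k ≤ Y c p k := by
  have h1 := Y_nonneg c p k
  have h2 := Y_le_one c p k
  obtain ⟨h3, h4⟩ := hw p
  refine ⟨?_, ?_, ?_⟩ <;> nlinarith [mul_nonneg h3 h1]

lemma Phi_mem {c : ℕ → ℤ} {w : ℕ → ℝ} (hw : ∀ p, 0 ≤ w p ∧ w p ≤ 1) (T : Finset ℕ) (b t n : ℕ) :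
    0 ≤ Phi c w T b t n ∧ Phi c w T b t n ≤ 1 := by
  unfold Phi
  exact ⟨Finset.prod_nonneg fun p _ => (fac_mem hw p _).1,
    Finset.prod_le_one (fun p _ => (fac_mem hw p _).1) fun p _ => (fac_mem hw p _).2.1⟩

lemma one_sub_Phi {c : ℕ → ℤ} {w : ℕ → ℝ} (hw : ∀ p, 0 ≤ w p ∧ w p ≤ 1) (T : Finset ℕ) (b t n : ℕ) :
    1 - Phi c w T b t n ≤ ∑ p ∈ T, Y c p (n / b ^ (t - p)) := by
  classical
  induction T using Finset.induction_on with
  | empty => simp [Phi]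
  | insert q T hq ih =>
    have e : Phi c w (insert q T) b t n = (1 - w q * Y c q (n / b ^ (t - q))) * Phi c w T b t n := by
      unfold Phi
      rw [Finset.prod_insert hq]
    rw [e, Finset.sum_insert hq]
    obtain ⟨h1, h2, h3⟩ := fac_mem (c := c) hw q (n / b ^ (t - q))
    obtain ⟨h4, h5⟩ := Phi_mem (c := c) hw T b t n
    nlinarith

lemma Phi_diff {c : ℕ → ℤ} {w : ℕ → ℝ} (hw : ∀ p, 0 ≤ w p ∧ w p ≤ 1) {T0 T : Finset ℕ}
    (h : T0 ⊆ T) (b t n : ℕ) :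
    |Phi c w T b t n - Phi c w T0 b t n| ≤ ∑ p ∈ T \ T0, Y c p (n / b ^ (t - p)) := by
  classical
  have e : Phi c w T b t n = Phi c w (T \ T0) b t n * Phi c w T0 b t n := by
    unfold Phi
    rw [Finset.prod_sdiff h]
  rw [e]
  obtain ⟨h1, h2⟩ := Phi_mem (c := c) hw (T \ T0) b t n
  obtain ⟨h3, h4⟩ := Phi_mem (c := c) hw T0 b t n
  have h5 := one_sub_Phi (c := c) hw (T \ T0) b t n
  rw [abs_le]
  constructor <;> nlinarith

/-- the exponent `q` is independent of the first `z` digits, in the mean -/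
theorem avFM (hFM : S_FM) {b A : ℕ} {c : ℕ → ℤ} (hOk : Ok b A c) :
    ∃ κ0 : ℝ, 0 < κ0 ∧ κ0 < 1 / 2 ∧ ∀ m a1 a2 : ℕ, 1 ≤ a1 → a1 ≤ a2 → ∃ C : ℝ, 0 < C ∧
    ∃ P : ℕ, ∀ q ≥ P, ∀ z : ℕ, m + a2 ≤ z → (z : ℝ) ≤ κ0 * q → q ≤ b ^ z → ∀ t ≥ q,
    ∀ T0 : Finset ℕ, (∀ p ∈ T0, p ≤ z) → ∀ w : ℕ → ℝ, (∀ p, 0 ≤ w p ∧ w p ≤ 1) →
    |Av b m a1 a2 t (fun n => Y c q (n / b ^ (t - q)) * Phi c w T0 b t n) -
      kap b * (Real.log q / q) * Av b m a1 a2 t (fun n => Phi c w T0 b t n)| ≤ C / q := by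
  have hb := hOk.hb
  have hb0 : (0 : ℝ) < b := by positivity
  obtain ⟨κ0, K, hκ0, hκ1, hK, h⟩ := fm_sh hFM hOk
  refine ⟨κ0, hκ0, hκ1, fun m a1 a2 h1 h12 => ?_⟩
  obtain ⟨P, hP⟩ := h (m + a2)
  refine ⟨K * (b : ℝ) ^ (m + a2), by positivity, P + 1, fun q hq z hz1 hz2 hqz t ht T0 hT0 w hw => ?_⟩
  have hq0 : (0 : ℝ) < q := by exact_mod_cast (by omega : 0 < q)
  have hzq : z ≤ q := by
    have : (z : ℝ) ≤ q := hz2.trans (by nlinarith)
    exact_mod_cast this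
  have hzt : z ≤ t := hzq.trans ht
  have hPhi : ∀ j, ∀ n ∈ cell b z t j, Phi c w T0 b t n = Phi c w T0 b z j := by
    intro j n hn
    unfold cell at hn
    rw [mem_Ico] at hn
    unfold Phi
    refine Finset.prod_congr rfl fun p hp => ?_
    have h2 : n / b ^ (t - z) = j := Nat.div_eq_of_lt_le hn.1 hn.2
    rw [div_div (hT0 p hp) hzt, h2]
  have hPhi0 : ∀ j, 0 ≤ Phi c w T0 b z j ∧ Phi c w T0 b z j ≤ 1 := fun j => Phi_mem hw T0 b z j
  have hcellcard : ∀ j, (((cell b z t j).card : ℕ) : ℝ) = (b : ℝ) ^ (t - z) := by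
    intro j
    unfold cell
    rw [Nat.card_Ico, ← Nat.sub_mul, Nat.add_sub_cancel_left, one_mul]
    push_cast
    rfl
  set κ' := kap b * (Real.log q / q) with hκ'
  have hbt : (b : ℝ) ^ (t - z) = (b : ℝ) ^ (t - q) * (b : ℝ) ^ (q - z) := by
    rw [← pow_add]; congr 1; omega
  have e1 : Av b m a1 a2 t (fun n => Y c q (n / b ^ (t - q)) * Phi c w T0 b t n) -
      κ' * Av b m a1 a2 t (fun n => Phi c w T0 b t n) =
      (b : ℝ) ^ (t - z) / (b : ℝ) ^ t * ∑ j ∈ Ico (a1 * b ^ (z - m)) (a2 * b ^ (z - m)),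
        Phi c w T0 b z j * ((cnt c b z j q : ℝ) / (b : ℝ) ^ (q - z) - κ') := by
    rw [Av_cells (show m ≤ z by omega) hzt h12, Av_cells (show m ≤ z by omega) hzt h12,
      ← mul_div_assoc, ← sub_div, div_mul_eq_mul_div, Finset.mul_sum, Finset.mul_sum,
      ← Finset.sum_sub_distrib]
    congr 1
    refine Finset.sum_congr rfl fun j _ => ?_
    have h2 : ∑ n ∈ cell b z t j, Y c q (n / b ^ (t - q)) * Phi c w T0 b t n =
        (b : ℝ) ^ (t - q) * (cnt c b z j q : ℝ) * Phi c w T0 b z j := by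
      rw [cnt_eq_sum, ← sum_level hb hzq ht, Finset.sum_mul]
      exact Finset.sum_congr rfl fun n hn => by rw [hPhi j n hn]
    have h3 : ∑ n ∈ cell b z t j, Phi c w T0 b t n = (b : ℝ) ^ (t - z) * Phi c w T0 b z j := by
      rw [Finset.sum_congr rfl (hPhi j), Finset.sum_const, nsmul_eq_mul, hcellcard]
    rw [h2, h3, hbt]
    have h4 : (b : ℝ) ^ (q - z) ≠ 0 := by positivity
    field_simp
  rw [e1, abs_mul, abs_of_nonneg (show (0 : ℝ) ≤ (b : ℝ) ^ (t - z) / (b : ℝ) ^ t by positivity)]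
  have hsub : Ico (a1 * b ^ (z - m)) (a2 * b ^ (z - m)) ⊆
      Ico (b ^ (z - (m + a2))) (b ^ (z + (m + a2))) := by
    intro j hj
    rw [mem_Ico] at hj ⊢
    have h4 : a2 < b ^ a2 := Nat.lt_pow_self (by omega)
    have h5 : b ^ (z - (m + a2)) ≤ b ^ (z - m) := Nat.pow_le_pow_right (by omega) (by omega)
    have h6 : b ^ (z - m) ≤ a1 * b ^ (z - m) := Nat.le_mul_of_pos_left _ h1
    have h7 : a2 * b ^ (z - m) ≤ b ^ a2 * b ^ (z - m) := Nat.mul_le_mul_right _ h4.le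
    have h8 : b ^ a2 * b ^ (z - m) ≤ b ^ (z + (m + a2)) := by
      rw [← pow_add]
      exact Nat.pow_le_pow_right (by omega) (by omega)
    omega
  have hsum : |∑ j ∈ Ico (a1 * b ^ (z - m)) (a2 * b ^ (z - m)),
        Phi c w T0 b z j * ((cnt c b z j q : ℝ) / (b : ℝ) ^ (q - z) - κ')| ≤
      (b : ℝ) ^ (z + (m + a2)) * (K / q) := by
    calc _ ≤ ∑ j ∈ Ico (a1 * b ^ (z - m)) (a2 * b ^ (z - m)),
          |Phi c w T0 b z j * ((cnt c b z j q : ℝ) / (b : ℝ) ^ (q - z) - κ')| :=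
          Finset.abs_sum_le_sum_abs _ _
      _ ≤ ∑ j ∈ Ico (a1 * b ^ (z - m)) (a2 * b ^ (z - m)),
          |(cnt c b z j q : ℝ) / (b : ℝ) ^ (q - z) - κ'| := by
          refine Finset.sum_le_sum fun j _ => ?_
          rw [abs_mul, abs_of_nonneg (hPhi0 j).1]
          exact mul_le_of_le_one_left (abs_nonneg _) (hPhi0 j).2
      _ ≤ ∑ j ∈ Ico (b ^ (z - (m + a2))) (b ^ (z + (m + a2))),
          |(cnt c b z j q : ℝ) / (b : ℝ) ^ (q - z) - κ'| :=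
          Finset.sum_le_sum_of_subset_of_nonneg hsub fun _ _ _ => abs_nonneg _
      _ ≤ _ := hP q (by omega) z hz1 hz2 hqz
  calc (b : ℝ) ^ (t - z) / (b : ℝ) ^ t * _ ≤
      (b : ℝ) ^ (t - z) / (b : ℝ) ^ t * ((b : ℝ) ^ (z + (m + a2)) * (K / q)) :=
        mul_le_mul_of_nonneg_left hsum (by positivity)
    _ = K * (b : ℝ) ^ (m + a2) / q := by
        have h9 : (b : ℝ) ^ t = (b : ℝ) ^ (t - z) * (b : ℝ) ^ z := by
          rw [← pow_add]; congr 1; omega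
        have h10 : (b : ℝ) ^ (z + (m + a2)) = (b : ℝ) ^ z * (b : ℝ) ^ (m + a2) := pow_add _ _ _
        rw [h9, h10]
        field_simp

end Run7.h854.PO
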