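import Mathlib
import Pool.Agent.Run7.h854.PO.Lap

set_option autoImplicit false

/-!
# The Laplace functional of the exponents in a finite set of levels is that of a Poisson process
-/

namespace Run7.h854.PO

open Finset Filter Topology
open Pool.Agent.H305R2 (roughPart log_nat_tendsto)
open Pool.Agent.N176.OW (cell kap S_FM)
open Pool.Agent.N176.SH

lemma kap_nonneg (b : ℕ) : 0 ≤ kap b :=
  div_nonneg (Real.exp_pos _).le (Real.log_natCast_nonneg b)

/-- one more exponent -/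
theorem step (hTU : S_TU) (hRB : S_RB) (hFM : S_FM) {b A : ℕ} {c : ℕ → ℤ} (hOk : Ok b A c) :
    ∃ κ0 : ℝ, 0 < κ0 ∧ κ0 < 1 / 2 ∧ ∀ m a1 a2 : ℕ, 1 ≤ a1 → a1 ≤ a2 → ∃ C : ℝ, 0 < C ∧
    ∃ P : ℕ, ∀ q ≥ P, ∀ t > q, ∀ T : Finset ℕ, (∀ p ∈ T, P ≤ p ∧ p < q) →
    ∀ w : ℕ → ℝ, (∀ p, 0 ≤ w p ∧ w p ≤ 1) →
    |Av b m a1 a2 t (fun n => Phi c w (insert q T) b t n) -
      (1 - w q * (kap b * (Real.log q / q))) * Av b m a1 a2 t (fun n => Phi c w T b t n)| ≤
      C * (1 / q + ∑ p ∈ T.filter (fun p : ℕ => κ0 * q < p), WW2 b p q) := by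
  classical
  have hb := hOk.hb
  have hb0 : (0 : ℝ) < b := by positivity
  obtain ⟨κ0, hκ0, hκ1, h⟩ := avFM hFM hOk
  refine ⟨κ0, hκ0, hκ1, fun m a1 a2 h1 h12 => ?_⟩
  obtain ⟨C1, hC1, P1, hP1⟩ := h m a1 a2 h1 h12
  obtain ⟨C2, hC2, P2, hP2⟩ := avYY hTU hRB hOk m a1 a2 h1 h12
  obtain ⟨C3, hC3, P3, hP3⟩ := avY hb c m a1 a2 h12
  have hκb := kap_nonneg b
  obtain ⟨P4, hP4⟩ := eventually_atTop.1 (Pool.Agent.N176.GP.grow (κ0 * Real.log 2) 2
    (mul_pos hκ0 (Real.log_pos (by norm_num))))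
  obtain ⟨P5, hP5⟩ := exists_nat_ge ((m + a2 + 1) / κ0)
  refine ⟨C1 + C2 + kap b * C3, by positivity,
    max (max P1 P2) (max P3 (max P4 (max P5 1))), ?_⟩
  intro q hq t ht T hT w hw
  have hqP1 : P1 ≤ q := by omega
  have hqP4 : P4 ≤ q := by omega
  have hqP5 : P5 ≤ q := by omega
  have hq1 : 1 ≤ q := by omega
  have hq0 : (0 : ℝ) < q := by exact_mod_cast hq1
  have hqr : (1 : ℝ) ≤ q := by exact_mod_cast hq1
  set z := ⌊κ0 * q⌋₊ with hz
  have hz1 : (z : ℝ) ≤ κ0 * q := Nat.floor_le (by positivity)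
  have hz2 : κ0 * q < z + 1 := Nat.lt_floor_add_one _
  have hz3 : m + a2 ≤ z := by
    have h2 : ((m : ℝ) + a2 + 1) ≤ κ0 * q := by
      rw [div_le_iff₀ hκ0] at hP5
      calc ((m : ℝ) + a2 + 1) ≤ P5 * κ0 := hP5
        _ ≤ q * κ0 := mul_le_mul_of_nonneg_right (by exact_mod_cast hqP5) hκ0.le
        _ = _ := mul_comm _ _
    have h3 : ((m + a2 : ℕ) : ℝ) < (z : ℝ) + 1 := by push_cast; linarith
    have h4 : m + a2 < z + 1 := by exact_mod_cast h3
    omega
  have hz4 : q ≤ b ^ z := by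
    have h2 := hP4 q hqP4
    have h3 : (q : ℝ) ≤ (2 : ℝ) ^ z := by
      have e : (2 : ℝ) ^ z = Real.exp (z * Real.log 2) := by
        rw [mul_comm, Real.exp_mul, Real.exp_log (by norm_num), Real.rpow_natCast]
      have h4 : Real.exp (κ0 * Real.log 2 * q) ≤ 2 * Real.exp (z * Real.log 2) := by
        have e2 : (2 : ℝ) * Real.exp (z * Real.log 2) = Real.exp ((z + 1) * Real.log 2) := by
          rw [add_mul, one_mul, Real.exp_add, Real.exp_log (by norm_num), mul_comm]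
        rw [e2, Real.exp_le_exp]
        have := Real.log_pos (show (1 : ℝ) < 2 by norm_num)
        nlinarith
      rw [e]
      nlinarith
    have h5 : (2 : ℝ) ^ z ≤ (b : ℝ) ^ z := by
      gcongr
      exact_mod_cast hb
    exact_mod_cast h3.trans h5
  set T0 := T.filter (fun p => p ≤ z) with hT0
  have hsub : T0 ⊆ T := filter_subset _ _
  have hdiff : T \ T0 = T.filter (fun p : ℕ => κ0 * q < p) := by
    ext p
    rw [Finset.mem_sdiff, hT0, Finset.mem_filter, Finset.mem_filter, hz]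
    constructor
    · rintro ⟨h2, h3⟩
      refine ⟨h2, ?_⟩
      by_contra h4
      push Not at h4
      exact h3 ⟨h2, Nat.le_floor h4⟩
    · rintro ⟨h2, h3⟩
      refine ⟨h2, fun h4 => ?_⟩
      have h5 := (Nat.le_floor_iff (by positivity)).1 h4.2
      linarith
  have hqT : q ∉ T := fun hqT => by
    have := (hT q hqT).2
    omega
  set S := ∑ p ∈ T.filter (fun p : ℕ => κ0 * q < p), WW2 b p q with hS
  have hS0 : 0 ≤ S := Finset.sum_nonneg fun p _ => WW2_nonneg b p q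
  set X1 := Av b m a1 a2 t (fun n => Y c q (n / b ^ (t - q)) * Phi c w T b t n) with hX1
  set X0 := Av b m a1 a2 t (fun n => Y c q (n / b ^ (t - q)) * Phi c w T0 b t n) with hX0
  set A1 := Av b m a1 a2 t (fun n => Phi c w T b t n) with hA1
  set A0 := Av b m a1 a2 t (fun n => Phi c w T0 b t n) with hA0
  set κ' := kap b * (Real.log q / q) with hκ'
  have hκ'0 : 0 ≤ κ' := mul_nonneg hκb (lg_nonneg q)
  have e1 : Av b m a1 a2 t (fun n => Phi c w (insert q T) b t n) = A1 - w q * X1 := by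
    rw [hA1, hX1, ← Av_mul, ← Av_sub]
    congr 1
    funext n
    unfold Phi
    rw [Finset.prod_insert hqT]
    ring
  have h2 : |X1 - X0| ≤ C2 * S := by
    rw [hX1, hX0, ← Av_sub]
    refine (Av_abs _).trans ?_
    have h3 : Av b m a1 a2 t (fun n => |Y c q (n / b ^ (t - q)) * Phi c w T b t n -
        Y c q (n / b ^ (t - q)) * Phi c w T0 b t n|) ≤
        Av b m a1 a2 t (fun n => ∑ p ∈ T \ T0, Y c p (n / b ^ (t - p)) * Y c q (n / b ^ (t - q))) := by
      refine Av_mono fun n => ?_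
      rw [← mul_sub, abs_mul, abs_of_nonneg (Y_nonneg _ _ _), ← Finset.sum_mul, mul_comm]
      exact mul_le_mul_of_nonneg_right (Phi_diff hw hsub b t n) (Y_nonneg _ _ _)
    refine h3.trans ?_
    rw [Av_sum, hS, Finset.mul_sum, ← hdiff]
    refine Finset.sum_le_sum fun p hp => ?_
    obtain ⟨h4, h5⟩ := hT p (Finset.mem_sdiff.1 hp).1
    exact hP2 p (by omega) q h5 t ht
  have h3 : |X0 - κ' * A0| ≤ C1 / q :=
    hP1 q hqP1 z hz3 hz1 hz4 t ht.le T0 (fun p hp => (mem_filter.1 hp).2) w hw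
  have h4 : κ' * |A1 - A0| ≤ kap b * C3 * S := by
    have h5 : |A1 - A0| ≤ ∑ p ∈ T \ T0, C3 * (Real.log p / p) := by
      rw [hA1, hA0, ← Av_sub]
      refine (Av_abs _).trans ?_
      refine (Av_mono (fun n => Phi_diff hw hsub b t n)).trans ?_
      rw [Av_sum]
      refine Finset.sum_le_sum fun p hp => ?_
      obtain ⟨h4, h5⟩ := hT p (Finset.mem_sdiff.1 hp).1
      exact hP3 p (by omega) t (by omega)
    calc κ' * |A1 - A0| ≤ κ' * ∑ p ∈ T \ T0, C3 * (Real.log p / p) :=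
          mul_le_mul_of_nonneg_left h5 hκ'0
      _ = ∑ p ∈ T \ T0, kap b * C3 * (Real.log p / p * (Real.log q / q)) := by
          rw [Finset.mul_sum]
          refine Finset.sum_congr rfl fun p _ => ?_
          rw [hκ']
          ring
      _ ≤ ∑ p ∈ T \ T0, kap b * C3 * WW2 b p q := by
          refine Finset.sum_le_sum fun p _ => ?_
          refine mul_le_mul_of_nonneg_left ?_ (by positivity)
          unfold WW2
          have := lg_nonneg p
          have : 0 ≤ Real.log p / p / (b : ℝ) ^ (q - p) := by positivity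
          linarith
      _ = kap b * C3 * S := by rw [hS, ← hdiff, Finset.mul_sum]
  have h5 : |X1 - κ' * A1| ≤ (C1 + C2 + kap b * C3) * (1 / q + S) := by
    have h6 : |X1 - κ' * A1| ≤ |X1 - X0| + |X0 - κ' * A0| + κ' * |A1 - A0| := by
      have e2 : X1 - κ' * A1 = (X1 - X0) + (X0 - κ' * A0) + κ' * (A0 - A1) := by ring
      rw [e2]
      refine (abs_add_three _ _ _).trans ?_
      rw [abs_mul, abs_of_nonneg hκ'0, abs_sub_comm A0 A1]
    have h7 : 0 ≤ 1 / (q : ℝ) := by positivity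
    have h8 : C1 / q = C1 * (1 / q) := by ring
    rw [h8] at h3
    have h9 : 0 ≤ kap b * C3 := by positivity
    nlinarith [mul_nonneg hC1.le hS0, mul_nonneg hC2.le h7, mul_nonneg h9 h7]
  rw [e1]
  have e3 : A1 - w q * X1 - (1 - w q * κ') * A1 = -(w q * (X1 - κ' * A1)) := by ring
  rw [e3, abs_neg, abs_mul, abs_of_nonneg (hw q).1]
  exact (mul_le_of_le_one_left (abs_nonneg _) (hw q).2).trans h5

/-- the error term -/
noncomputable def err (b : ℕ) (κ0 : ℝ) (T : Finset ℕ) : ℝ :=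
  ∑ q ∈ T, (1 / (q : ℝ) + ∑ p ∈ T.filter (fun p : ℕ => κ0 * q < p ∧ p < q), WW2 b p q)

lemma err_nonneg (b : ℕ) (κ0 : ℝ) (T : Finset ℕ) : 0 ≤ err b κ0 T := by
  unfold err
  refine Finset.sum_nonneg fun q _ => add_nonneg (by positivity) ?_
  exact Finset.sum_nonneg fun p _ => WW2_nonneg b p q

lemma err_insert (b : ℕ) (κ0 : ℝ) {q : ℕ} {T : Finset ℕ} (h : ∀ x ∈ T, x < q) :
    err b κ0 (insert q T) = (1 / (q : ℝ) + ∑ p ∈ T.filter (fun p : ℕ => κ0 * q < p), WW2 b p q) +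
      err b κ0 T := by
  classical
  have hqT : q ∉ T := fun hqT => by
    have := h q hqT
    omega
  unfold err
  rw [Finset.sum_insert hqT]
  congr 1
  · congr 1
    refine Finset.sum_congr ?_ fun _ _ => rfl
    ext p
    rw [mem_filter, mem_filter, mem_insert]
    constructor
    · rintro ⟨h1 | h1, h2, h3⟩
      · omega
      · exact ⟨h1, h2⟩
    · rintro ⟨h1, h2⟩
      exact ⟨Or.inr h1, h2, h p h1⟩
  · refine Finset.sum_congr rfl fun q' hq' => ?_
    congr 1
    refine Finset.sum_congr ?_ fun _ _ => rfl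
    ext p
    rw [mem_filter, mem_filter, mem_insert]
    have h4 := h q' hq'
    constructor
    · rintro ⟨h1 | h1, h2, h3⟩
      · omega
      · exact ⟨h1, h2, h3⟩
    · rintro ⟨h1, h2, h3⟩
      exact ⟨Or.inr h1, h2, h3⟩

lemma exp_second {x : ℝ} (hx : 0 ≤ x) : |1 - x - Real.exp (-x)| ≤ x ^ 2 := by
  have h1 := Real.one_sub_le_exp_neg x
  have h2 : Real.exp (-x) ≤ 1 - x + x ^ 2 := by
    rw [Real.exp_neg]
    have h3 : 1 + x ≤ Real.exp x := by linarith [Real.add_one_le_exp x]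
    have h4 : (Real.exp x)⁻¹ ≤ (1 + x)⁻¹ := by
      apply inv_anti₀ (by linarith) h3
    refine h4.trans ?_
    rw [inv_eq_one_div, div_le_iff₀ (by linarith)]
    nlinarith [pow_nonneg hx 3]
  rw [abs_le]
  constructor <;> nlinarith

/-- the Laplace functional of the exponents in `T` -/
theorem laplace (hTU : S_TU) (hRB : S_RB) (hFM : S_FM) {b A : ℕ} {c : ℕ → ℤ} (hOk : Ok b A c) :
    ∃ κ0 : ℝ, 0 < κ0 ∧ κ0 < 1 / 2 ∧ ∀ m a1 a2 : ℕ, 1 ≤ a1 → a1 ≤ a2 → ∃ C : ℝ, 0 < C ∧
    ∃ P : ℕ, ∀ T : Finset ℕ, (∀ p ∈ T, P ≤ p) → ∀ t : ℕ, m ≤ t → (∀ p ∈ T, p < t) →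
    ∀ w : ℕ → ℝ, (∀ p, 0 ≤ w p ∧ w p ≤ 1) →
    |Av b m a1 a2 t (fun n => Phi c w T b t n) -
      ((a2 : ℝ) - a1) / (b : ℝ) ^ m * Real.exp (-(∑ q ∈ T, w q * (kap b * (Real.log q / q))))| ≤
      C * err b κ0 T := by
  classical
  have hb := hOk.hb
  have hb0 : (0 : ℝ) < b := by positivity
  obtain ⟨κ0, hκ0, hκ1, h⟩ := step hTU hRB hFM hOk
  refine ⟨κ0, hκ0, hκ1, fun m a1 a2 h1 h12 => ?_⟩
  obtain ⟨C1, hC1, P1, hP1⟩ := h m a1 a2 h1 h12
  have hκb := kap_nonneg b
  have hlim : Tendsto (fun q : ℕ => (Real.log q) ^ 2 / q) atTop (𝓝 0) := by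
    have h1 := (Real.isLittleO_pow_log_id_atTop (n := 2)).tendsto_div_nhds_zero
    have h2 := h1.comp tendsto_natCast_atTop_atTop
    exact h2
  have hlim2 : Tendsto (fun q : ℕ => kap b * (Real.log q / q)) atTop (𝓝 0) := by
    have h1 := (Real.isLittleO_pow_log_id_atTop (n := 1)).tendsto_div_nhds_zero
    have h2 := (h1.comp tendsto_natCast_atTop_atTop).const_mul (kap b)
    rw [mul_zero] at h2
    refine h2.congr fun q => ?_
    simp
  obtain ⟨P2, hP2⟩ := eventually_atTop.1 (hlim.eventually_le_const (show (0 : ℝ) < 1 by norm_num))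
  obtain ⟨P3, hP3⟩ := eventually_atTop.1 (hlim2.eventually_le_const (show (0 : ℝ) < 1 by norm_num))
  set M := ((a2 : ℝ) - a1) / (b : ℝ) ^ m with hM
  have hM0 : 0 ≤ M := by
    have : (a1 : ℝ) ≤ a2 := by exact_mod_cast h12
    rw [hM]
    exact div_nonneg (by linarith) (by positivity)
  refine ⟨C1 + M * kap b ^ 2, by positivity, max P1 (max P2 (max P3 1)), fun T hT t hmt hTt w hw => ?_⟩
  induction T using Finset.induction_on_max with
  | empty =>
    have e1 : Av b m a1 a2 t (fun n => Phi c w ∅ b t n) = M := by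
      unfold Phi
      simp only [Finset.prod_empty]
      exact Av_one hb hmt h12
    rw [e1, Finset.sum_empty, neg_zero, Real.exp_zero, mul_one, sub_self, abs_zero]
    unfold err
    rw [Finset.sum_empty, mul_zero]
  | insert q T hqT ih =>
    have hqT' : q ∉ T := fun hq => by
      have := hqT q hq
      omega
    have ih' := ih (fun p hp => hT p (mem_insert_of_mem hp)) (fun p hp => hTt p (mem_insert_of_mem hp))
    have hqP := hT q (mem_insert_self _ _)
    have hqP1 : P1 ≤ q := by omega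
    have hqP2 : P2 ≤ q := by omega
    have hqP3 : P3 ≤ q := by omega
    have hq1 : 1 ≤ q := by omega
    have hq0 : (0 : ℝ) < q := by exact_mod_cast hq1
    have hst := hP1 q hqP1 t (hTt q (mem_insert_self _ _)) T (fun p hp =>
      ⟨by have := hT p (mem_insert_of_mem hp); omega, hqT p hp⟩) w hw
    rw [err_insert b κ0 hqT, Finset.sum_insert hqT']
    set S := ∑ p ∈ T.filter (fun p : ℕ => κ0 * q < p), WW2 b p q with hS
    have hS0 : 0 ≤ S := Finset.sum_nonneg fun p _ => WW2_nonneg b p q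
    set A1 := Av b m a1 a2 t (fun n => Phi c w T b t n) with hA1
    set A2 := Av b m a1 a2 t (fun n => Phi c w (insert q T) b t n) with hA2
    set x := w q * (kap b * (Real.log q / q)) with hx
    set s := ∑ q ∈ T, w q * (kap b * (Real.log q / q)) with hs
    have hlq := lg_nonneg q
    have hκq : 0 ≤ kap b * (Real.log q / q) := mul_nonneg hκb hlq
    have hx0 : 0 ≤ x := mul_nonneg (hw q).1 hκq
    have hx1 : x ≤ kap b * (Real.log q / q) := mul_le_of_le_one_left hκq (hw q).2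
    have hx2 : x ≤ 1 := hx1.trans (hP3 q hqP3)
    have hs0 : 0 ≤ s := Finset.sum_nonneg fun p _ =>
      mul_nonneg (hw p).1 (mul_nonneg hκb (lg_nonneg p))
    have hes : Real.exp (-s) ≤ 1 := Real.exp_le_one_iff.2 (by linarith)
    have hes0 : 0 < Real.exp (-s) := Real.exp_pos _
    have e2 : Real.exp (-(x + s)) = Real.exp (-x) * Real.exp (-s) := by
      rw [← Real.exp_add]; congr 1; ring
    have h6 : x ^ 2 ≤ kap b ^ 2 * (1 / q) := by
      have h7 := hP2 q hqP2
      calc x ^ 2 ≤ (kap b * (Real.log q / q)) ^ 2 := by gcongr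
        _ = kap b ^ 2 * ((Real.log q) ^ 2 / q * (1 / q)) := by field_simp
        _ ≤ kap b ^ 2 * (1 * (1 / q)) := by gcongr
        _ = _ := by ring
    have h7 := exp_second hx0
    have e3 : A2 - M * Real.exp (-(x + s)) = (A2 - (1 - x) * A1) + (1 - x) * (A1 - M * Real.exp (-s)) +
        M * Real.exp (-s) * (1 - x - Real.exp (-x)) := by
      rw [e2]; ring
    rw [e3]
    refine (abs_add_three _ _ _).trans ?_
    have h8 : |(1 - x) * (A1 - M * Real.exp (-s))| ≤ (C1 + M * kap b ^ 2) * err b κ0 T := by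
      rw [abs_mul, abs_of_nonneg (by linarith : 0 ≤ 1 - x)]
      exact (mul_le_of_le_one_left (abs_nonneg _) (by linarith)).trans ih'
    have h9 : |M * Real.exp (-s) * (1 - x - Real.exp (-x))| ≤ M * kap b ^ 2 * (1 / q) := by
      rw [abs_mul, abs_of_nonneg (by positivity : 0 ≤ M * Real.exp (-s))]
      calc M * Real.exp (-s) * |1 - x - Real.exp (-x)| ≤ M * 1 * (kap b ^ 2 * (1 / q)) := by
            gcongr
            exact h7.trans h6
        _ = _ := by ring
    have h10 : 0 ≤ M * kap b ^ 2 * S := by positivity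
    nlinarith

end Run7.h854.PO
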