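import Mathlib
import Pool.Agent.Run7.h854.PO.Err

set_option autoImplicit false

/-!
# The joint law of the numbers of exponents in several sets of levels
-/

namespace Run7.h854.PO

open Finset Filter Topology
open Pool.Agent.H305R2 (roughPart)
open Pool.Agent.N176.OW (cell kap S_FM)
open Pool.Agent.N176.SH

/-- the union of the sets -/
def UU {r : ℕ} (T : Fin r → Finset ℕ) : Finset ℕ := univ.biUnion T

/-- the hypotheses on the sets of levels -/
structure Thin {r : ℕ} (κ : ℝ) (T : ℕ → Fin r → Finset ℕ) (lam : Fin r → ℝ) : Prop where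
  disj : ∀ n, Pairwise fun s s' => Disjoint (T n s) (T n s')
  min : ∀ M : ℕ, ∀ᶠ n in atTop, ∀ p ∈ UU (T n), M < p
  thin : ∀ δ : ℝ, 0 < δ → ∀ᶠ n in atTop, ∀ x : ℕ,
    ∑ p ∈ (UU (T n)).filter (fun p => x < p ∧ p ≤ 2 * x), Real.log p / (p : ℝ) ≤ δ
  pair : ∀ h : ℕ, 1 ≤ h → Tendsto (fun n =>
    ∑ p ∈ (UU (T n)).filter (fun p => p + h ∈ UU (T n)), Real.log p / (p : ℝ)) atTop (𝓝 0)
  mass : ∀ s, Tendsto (fun n => κ * ∑ p ∈ T n s, Real.log p / (p : ℝ)) atTop (𝓝 (lam s))

/-- the weights -/
noncomputable def wt {r : ℕ} (T : Fin r → Finset ℕ) (θ : Fin r → ℝ) (p : ℕ) : ℝ :=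
  ∑ s, if p ∈ T s then 1 - θ s else 0

lemma wt_eq {r : ℕ} {T : Fin r → Finset ℕ} (hd : Pairwise fun s s' => Disjoint (T s) (T s'))
    (θ : Fin r → ℝ) {s : Fin r} {p : ℕ} (hp : p ∈ T s) : wt T θ p = 1 - θ s := by
  classical
  unfold wt
  rw [Finset.sum_eq_single s]
  · rw [if_pos hp]
  · intro s' _ hs'
    rw [if_neg]
    intro hp'
    exact Finset.disjoint_left.1 (hd hs') hp' hp
  · intro h
    exact absurd (mem_univ s) h

lemma wt_mem {r : ℕ} {T : Fin r → Finset ℕ} (hd : Pairwise fun s s' => Disjoint (T s) (T s'))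
    {θ : Fin r → ℝ} (hθ : ∀ s, 0 ≤ θ s ∧ θ s ≤ 1) (p : ℕ) : 0 ≤ wt T θ p ∧ wt T θ p ≤ 1 := by
  classical
  by_cases h : ∃ s, p ∈ T s
  · obtain ⟨s, hs⟩ := h
    rw [wt_eq hd θ hs]
    obtain ⟨h1, h2⟩ := hθ s
    constructor <;> linarith
  · push Not at h
    unfold wt
    rw [Finset.sum_eq_zero fun s _ => by rw [if_neg (h s)]]
    norm_num

/-- the generating function as a Laplace functional -/
lemma Phi_theta {r : ℕ} {T : Fin r → Finset ℕ} (hd : Pairwise fun s s' => Disjoint (T s) (T s'))
    (c : ℕ → ℤ) (θ : Fin r → ℝ) (b t n : ℕ) :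
    Phi c (wt T θ) (UU T) b t n = ∏ s, θ s ^ (hits c (T s) b t n).card := by
  classical
  unfold Phi UU
  rw [Finset.prod_biUnion (fun s _ s' _ hss => hd hss)]
  refine Finset.prod_congr rfl fun s _ => ?_
  have h1 : ∀ p ∈ T s, (1 - wt T θ p * Y c p (n / b ^ (t - p))) =
      if (roughPart p (sh c p (n / b ^ (t - p)))).Prime then θ s else 1 := by
    intro p hp
    rw [wt_eq hd θ hp]
    unfold Y
    split_ifs <;> ring
  rw [Finset.prod_congr rfl h1]
  unfold hits
  rw [Finset.prod_ite, Finset.prod_const, Finset.prod_const_one, mul_one]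

/-- the sum of the weights -/
lemma wt_sum {r : ℕ} {T : Fin r → Finset ℕ} (hd : Pairwise fun s s' => Disjoint (T s) (T s'))
    (κ : ℝ) (θ : Fin r → ℝ) :
    ∑ q ∈ UU T, wt T θ q * (κ * (Real.log q / q)) =
      ∑ s, (1 - θ s) * (κ * ∑ p ∈ T s, Real.log p / (p : ℝ)) := by
  classical
  unfold UU
  rw [Finset.sum_biUnion (fun s _ s' _ hss => hd hss)]
  refine Finset.sum_congr rfl fun s _ => ?_
  rw [Finset.mul_sum, Finset.mul_sum]
  refine Finset.sum_congr rfl fun p hp => ?_
  rw [wt_eq hd θ hp]

/-- the mixed generating function -/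
noncomputable def fac {r : ℕ} (c : ℕ → ℤ) (T : Fin r → Finset ℕ) (b t : ℕ) (D : Finset (Fin r))
    (θ : Fin r → ℝ) (k : Fin r → ℕ) (s : Fin r) (x : ℕ) : ℝ :=
  if s ∈ D then (if (hits c (T s) b t x).card = k s then 1 else 0)
    else θ s ^ (hits c (T s) b t x).card

/-- the limit -/
noncomputable def LL {r : ℕ} (lam : Fin r → ℝ) (D : Finset (Fin r)) (θ : Fin r → ℝ)
    (k : Fin r → ℕ) (s : Fin r) : ℝ :=
  if s ∈ D then Real.exp (-lam s) * lam s ^ k s / (k s).factorial
    else Real.exp (-(lam s * (1 - θ s)))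

theorem joint (hTU : S_TU) (hRB : S_RB) (hFM : S_FM) {b A : ℕ} {c : ℕ → ℤ} (hOk : Ok b A c)
    {r : ℕ} {T : ℕ → Fin r → Finset ℕ} {lam : Fin r → ℝ} (hT : Thin (kap b) T lam)
    (m a1 a2 : ℕ) (h1 : 1 ≤ a1) (h12 : a1 ≤ a2) (t : ℕ → ℕ) (hmt : ∀ n, m ≤ t n)
    (ht : ∀ n, ∀ p ∈ UU (T n), p < t n) (D : Finset (Fin r)) :
    ∀ θ : Fin r → ℝ, (∀ s, 0 ≤ θ s ∧ θ s ≤ 1) → ∀ k : Fin r → ℕ,
    Tendsto (fun n => Av b m a1 a2 (t n) (fun x => ∏ s, fac c (T n) b (t n) D θ k s x)) atTop
      (𝓝 (((a2 : ℝ) - a1) / (b : ℝ) ^ m * ∏ s, LL lam D θ k s)) := by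
  classical
  have hb := hOk.hb
  have hb0 : (0 : ℝ) < b := by positivity
  have hκb := kap_nonneg b
  have hlam : ∀ s, 0 ≤ lam s := fun s => ge_of_tendsto' (hT.mass s) fun n =>
    mul_nonneg hκb (Finset.sum_nonneg fun p _ => lg_nonneg p)
  have hκpos : 0 < kap b := div_pos (Real.exp_pos _) (Real.log_pos (by exact_mod_cast hb))
  induction D using Finset.induction_on with
  | empty =>
    intro θ hθ k
    obtain ⟨κ0, hκ0, _, hL⟩ := laplace hTU hRB hFM hOk
    obtain ⟨C, hC, P, hP⟩ := hL m a1 a2 h1 h12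
    -- the mass is bounded
    have hmass : ∀ᶠ n in atTop, ∑ p ∈ UU (T n), Real.log p / (p : ℝ) ≤
        ((∑ s, lam s) + 1) / kap b := by
      have h2 : Tendsto (fun n => ∑ s, kap b * ∑ p ∈ T n s, Real.log p / (p : ℝ)) atTop
          (𝓝 (∑ s, lam s)) := tendsto_finsetSum _ fun s _ => hT.mass s
      filter_upwards [h2.eventually_lt_const (lt_add_one _)] with n hn
      rw [le_div_iff₀ hκpos]
      refine le_trans (le_of_eq ?_) hn.le
      unfold UU
      rw [Finset.sum_biUnion (fun s _ s' _ hss => hT.disj n hss), Finset.sum_mul]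
      exact Finset.sum_congr rfl fun s _ => mul_comm _ _
    have herr := err_tendsto hb hκ0 (fun n => UU (T n)) hT.min hT.thin hT.pair hmass
    have hsum : Tendsto (fun n => ∑ q ∈ UU (T n), wt (T n) θ q * (kap b * (Real.log q / q))) atTop
        (𝓝 (∑ s, (1 - θ s) * lam s)) := by
      have h2 : Tendsto (fun n => ∑ s, (1 - θ s) * (kap b * ∑ p ∈ T n s, Real.log p / (p : ℝ))) atTop
          (𝓝 (∑ s, (1 - θ s) * lam s)) := tendsto_finsetSum _ fun s _ => (hT.mass s).const_mul _
      refine h2.congr fun n => ?_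
      rw [wt_sum (hT.disj n)]
    have hexp : Tendsto (fun n => ((a2 : ℝ) - a1) / (b : ℝ) ^ m *
        Real.exp (-(∑ q ∈ UU (T n), wt (T n) θ q * (kap b * (Real.log q / q))))) atTop
        (𝓝 (((a2 : ℝ) - a1) / (b : ℝ) ^ m * ∏ s, LL lam ∅ θ k s)) := by
      have e : ∏ s, LL lam ∅ θ k s = Real.exp (-(∑ s, (1 - θ s) * lam s)) := by
        unfold LL
        simp only [notMem_empty, if_false]
        rw [← Real.exp_sum, Finset.sum_neg_distrib]
        congr 2
        exact Finset.sum_congr rfl fun s _ => mul_comm _ _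
      rw [e]
      exact ((Real.continuous_exp.tendsto _).comp hsum.neg).const_mul _
    have hdiff : Tendsto (fun n => Av b m a1 a2 (t n) (fun x => ∏ s, fac c (T n) b (t n) ∅ θ k s x) -
        ((a2 : ℝ) - a1) / (b : ℝ) ^ m *
        Real.exp (-(∑ q ∈ UU (T n), wt (T n) θ q * (kap b * (Real.log q / q))))) atTop (𝓝 0) := by
      have h3 : Tendsto (fun n => C * err b κ0 (UU (T n))) atTop (𝓝 0) := by
        have := herr.const_mul C
        rwa [mul_zero] at this
      refine squeeze_zero_norm' ?_ h3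
      filter_upwards [hT.min P] with n hn
      rw [Real.norm_eq_abs]
      have h4 := hP (UU (T n)) (fun p hp => (hn p hp).le) (t n) (hmt n) (ht n) (wt (T n) θ)
        (wt_mem (hT.disj n) hθ)
      refine le_trans (le_of_eq ?_) h4
      congr 3
      funext x
      rw [Phi_theta (hT.disj n)]
      unfold fac
      simp only [notMem_empty, if_false]
    have := hdiff.add hexp
    simp only [sub_add_cancel, zero_add] at this
    exact this
  | insert s0 D hs0 ih =>
    intro θ hθ k
    -- the other factors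
    set R : ℕ → ℕ → ℝ := fun n x => ∏ s ∈ univ.erase s0, fac c (T n) b (t n) D θ k s x with hR
    have hR0 : ∀ n x, 0 ≤ R n x := by
      intro n x
      rw [hR]
      refine Finset.prod_nonneg fun s _ => ?_
      unfold fac
      split_ifs
      · norm_num
      · norm_num
      · exact pow_nonneg (hθ s).1 _
    set Nn : ℕ → ℕ → ℕ := fun n x => (hits c (T n s0) b (t n) x).card with hNn
    set μ := ((a2 : ℝ) - a1) / (b : ℝ) ^ m * ∏ s ∈ univ.erase s0, LL lam D θ k s with hμ
    have hμ0 : 0 ≤ μ := by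
      rw [hμ]
      have h2 : (a1 : ℝ) ≤ a2 := by exact_mod_cast h12
      refine mul_nonneg (div_nonneg (by linarith) (by positivity)) (Finset.prod_nonneg fun s _ => ?_)
      unfold LL
      have := hlam s
      split_ifs
      · positivity
      · positivity
    have hcont := cont_gf
      (fun n j => Av b m a1 a2 (t n) (fun x => (if Nn n x = j then 1 else 0) * R n x))
      (fun n ϑ => Av b m a1 a2 (t n) (fun x => ϑ ^ (Nn n x) * R n x)) μ (lam s0) (hlam s0) hμ0
      (fun n j => Av_nonneg fun x => mul_nonneg (by split_ifs <;> norm_num) (hR0 n x))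
      (fun n ϑ hϑ0 hϑ1 => ?_) (fun ϑ hϑ0 hϑ1 => ?_) (k s0)
    · -- the conclusion
      have e1 : ∀ n, Av b m a1 a2 (t n) (fun x => ∏ s, fac c (T n) b (t n) (insert s0 D) θ k s x) =
          Av b m a1 a2 (t n) (fun x => (if Nn n x = k s0 then 1 else 0) * R n x) := by
        intro n
        congr 1
        funext x
        rw [← Finset.mul_prod_erase univ _ (mem_univ s0)]
        congr 1
        · unfold fac
          rw [if_pos (mem_insert_self _ _)]
        · refine Finset.prod_congr rfl fun s hs => ?_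
          have hss : s ≠ s0 := (mem_erase.1 hs).1
          unfold fac
          by_cases hsD : s ∈ D
          · rw [if_pos hsD, if_pos (mem_insert_of_mem hsD)]
          · rw [if_neg hsD, if_neg (by
              rw [mem_insert]
              push Not
              exact ⟨hss, hsD⟩)]
      have e2 : ((a2 : ℝ) - a1) / (b : ℝ) ^ m * ∏ s, LL lam (insert s0 D) θ k s =
          μ * (Real.exp (-lam s0) * lam s0 ^ (k s0) / (k s0).factorial) := by
        rw [← Finset.mul_prod_erase univ _ (mem_univ s0), hμ]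
        have e3 : LL lam (insert s0 D) θ k s0 =
            Real.exp (-lam s0) * lam s0 ^ (k s0) / (k s0).factorial := by
          unfold LL
          rw [if_pos (mem_insert_self _ _)]
        have e4 : ∏ s ∈ univ.erase s0, LL lam (insert s0 D) θ k s =
            ∏ s ∈ univ.erase s0, LL lam D θ k s := by
          refine Finset.prod_congr rfl fun s hs => ?_
          have hss : s ≠ s0 := (mem_erase.1 hs).1
          unfold LL
          by_cases hsD : s ∈ D
          · rw [if_pos hsD, if_pos (mem_insert_of_mem hsD)]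
          · rw [if_neg hsD, if_neg (by
              rw [mem_insert]
              push Not
              exact ⟨hss, hsD⟩)]
        rw [e3, e4]
        ring
      rw [e2]
      exact hcont.congr fun n => (e1 n).symm
    · -- the generating function
      have h2 : HasSum (fun j => ∑ x ∈ Ico (a1 * b ^ (t n - m)) (a2 * b ^ (t n - m)),
          (if Nn n x = j then (1 : ℝ) else 0) * R n x * ϑ ^ j)
          (∑ x ∈ Ico (a1 * b ^ (t n - m)) (a2 * b ^ (t n - m)), ϑ ^ (Nn n x) * R n x) := by
        refine hasSum_sum fun x _ => ?_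
        have h3 := hasSum_ite_eq (Nn n x) (ϑ ^ (Nn n x) * R n x)
        have h4 : (fun j => (if Nn n x = j then (1 : ℝ) else 0) * R n x * ϑ ^ j) =
            fun j => if j = Nn n x then ϑ ^ (Nn n x) * R n x else 0 := by
          funext j
          by_cases hj : j = Nn n x
          · rw [if_pos hj, if_pos hj.symm, hj]
            ring
          · rw [if_neg hj, if_neg (fun h => hj h.symm)]
            ring
        rw [h4]
        exact h3
      have h5 := h2.div_const ((b : ℝ) ^ (t n))
      have h6 : (fun j => Av b m a1 a2 (t n) (fun x => (if Nn n x = j then 1 else 0) * R n x) * ϑ ^ j) =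
          fun j => (∑ x ∈ Ico (a1 * b ^ (t n - m)) (a2 * b ^ (t n - m)),
          (if Nn n x = j then (1 : ℝ) else 0) * R n x * ϑ ^ j) / (b : ℝ) ^ (t n) := by
        funext j
        unfold Av
        rw [div_mul_eq_mul_div, Finset.sum_mul]
      change HasSum (fun j => Av b m a1 a2 (t n)
        (fun x => (if Nn n x = j then 1 else 0) * R n x) * ϑ ^ j) _
      rw [h6]
      exact h5
    · -- the limit of the generating function
      have h2 := ih (Function.update θ s0 ϑ) (fun s => by
        by_cases hs : s = s0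
        · rw [hs, Function.update_self]
          exact ⟨hϑ0, hϑ1⟩
        · rw [Function.update_of_ne hs]
          exact hθ s) k
      have e1 : ∀ n, Av b m a1 a2 (t n)
          (fun x => ∏ s, fac c (T n) b (t n) D (Function.update θ s0 ϑ) k s x) =
          Av b m a1 a2 (t n) (fun x => ϑ ^ (Nn n x) * R n x) := by
        intro n
        congr 1
        funext x
        rw [← Finset.mul_prod_erase univ _ (mem_univ s0)]
        congr 1
        · unfold fac
          rw [if_neg hs0, Function.update_self]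
        · refine Finset.prod_congr rfl fun s hs => ?_
          have hss : s ≠ s0 := (mem_erase.1 hs).1
          unfold fac
          rw [Function.update_of_ne hss]
      have e2 : ((a2 : ℝ) - a1) / (b : ℝ) ^ m * ∏ s, LL lam D (Function.update θ s0 ϑ) k s =
          μ * Real.exp (-(lam s0 * (1 - ϑ))) := by
        rw [← Finset.mul_prod_erase univ _ (mem_univ s0), hμ]
        have e3 : LL lam D (Function.update θ s0 ϑ) k s0 = Real.exp (-(lam s0 * (1 - ϑ))) := by
          unfold LL
          rw [if_neg hs0, Function.update_self]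
        have e4 : ∏ s ∈ univ.erase s0, LL lam D (Function.update θ s0 ϑ) k s =
            ∏ s ∈ univ.erase s0, LL lam D θ k s := by
          refine Finset.prod_congr rfl fun s hs => ?_
          have hss : s ≠ s0 := (mem_erase.1 hs).1
          unfold LL
          rw [Function.update_of_ne hss]
        rw [e3, e4]
        ring
      rw [e2] at h2
      exact h2.congr e1

end Run7.h854.PO
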