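import Mathlib
import Pool.Agent.Run7.h854.PO.Joint
import Pool.Agent.N176.GP.Meas

set_option autoImplicit false

/-!
# The Poisson law for random amplitudes
-/

namespace Run7.h854.PO

open Finset Filter Topology MeasureTheory
open Pool.Agent.H305R2 (roughPart)
open Pool.Agent.N176.OW (cell kap S_FM)
open Pool.Agent.N176.SH
open Pool.Agent.N176.GP (NB NB_spec NB_div)

/-- the integer of level `t` is `n` -/
lemma NB_eq_iff {b : ℕ} (hb : 2 ≤ b) {β : ℝ} (hβ : 0 < β) (t n : ℕ) :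
    NB b β t = n ↔ (n : ℝ) / (b : ℝ) ^ t < β ∧ β ≤ ((n : ℝ) + 1) / (b : ℝ) ^ t := by
  have hb0 : (0 : ℝ) < b := by positivity
  have hbt : (0 : ℝ) < (b : ℝ) ^ t := by positivity
  obtain ⟨h1, h2⟩ := NB_spec hb hβ t
  rw [div_lt_iff₀ hbt, le_div_iff₀ hbt]
  constructor
  · rintro rfl
    exact ⟨h1, h2⟩
  · rintro ⟨h3, h4⟩
    have h5 : ((NB b β t : ℕ) : ℝ) < ((n + 1 : ℕ) : ℝ) := by push_cast; linarith
    have h6 : ((n : ℕ) : ℝ) < ((NB b β t + 1 : ℕ) : ℝ) := by push_cast; linarith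
    have h7 : NB b β t < n + 1 := by exact_mod_cast h5
    have h8 : n < NB b β t + 1 := by exact_mod_cast h6
    omega

/-- the measure of a set of amplitudes given by the integer of level `t` -/
theorem vol_eq {b : ℕ} (hb : 2 ≤ b) {m a1 a2 t : ℕ} (hmt : m ≤ t) (Q : ℕ → Prop) [DecidablePred Q] :
    volume {β : ℝ | (a1 : ℝ) / (b : ℝ) ^ m < β ∧ β ≤ (a2 : ℝ) / (b : ℝ) ^ m ∧ Q (NB b β t)} =
      ENNReal.ofReal (Av b m a1 a2 t (fun n => if Q n then 1 else 0)) := by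
  classical
  have hb0 : (0 : ℝ) < b := by positivity
  have hbt : (0 : ℝ) < (b : ℝ) ^ t := by positivity
  have hbm : (0 : ℝ) < (b : ℝ) ^ m := by positivity
  have hbtm : (b : ℝ) ^ t = (b : ℝ) ^ (t - m) * (b : ℝ) ^ m := by rw [← pow_add]; congr 1; omega
  set F := (Ico (a1 * b ^ (t - m)) (a2 * b ^ (t - m))).filter Q with hF
  have hset : {β : ℝ | (a1 : ℝ) / (b : ℝ) ^ m < β ∧ β ≤ (a2 : ℝ) / (b : ℝ) ^ m ∧ Q (NB b β t)} =
      ⋃ n ∈ F, Set.Ioc ((n : ℝ) / (b : ℝ) ^ t) (((n : ℝ) + 1) / (b : ℝ) ^ t) := by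
    ext β
    rw [Set.mem_ofPred_eq, Set.mem_iUnion₂]
    constructor
    · rintro ⟨h1, h2, h3⟩
      have hβ : 0 < β := lt_of_le_of_lt (by positivity) h1
      have h4 := (NB_eq_iff hb hβ t (NB b β t)).1 rfl
      refine ⟨NB b β t, ?_, h4⟩
      rw [hF, mem_filter, mem_Ico]
      refine ⟨⟨?_, ?_⟩, h3⟩
      · have h5 := h1.trans_le h4.2
        rw [div_lt_div_iff₀ hbm hbt, hbtm] at h5
        have h6 : (a1 : ℝ) * (b : ℝ) ^ (t - m) < (NB b β t : ℝ) + 1 := by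
          have : (a1 : ℝ) * (b : ℝ) ^ (t - m) * (b : ℝ) ^ m < ((NB b β t : ℝ) + 1) * (b : ℝ) ^ m := by
            linarith
          exact lt_of_mul_lt_mul_right this hbm.le
        have h7 : ((a1 * b ^ (t - m) : ℕ) : ℝ) < ((NB b β t + 1 : ℕ) : ℝ) := by push_cast; exact h6
        have h8 : a1 * b ^ (t - m) < NB b β t + 1 := by exact_mod_cast h7
        omega
      · have h5 := h4.1.trans_le h2
        rw [div_lt_div_iff₀ hbt hbm, hbtm] at h5
        have h6 : (NB b β t : ℝ) < (a2 : ℝ) * (b : ℝ) ^ (t - m) := by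
          have : (NB b β t : ℝ) * (b : ℝ) ^ m < ((a2 : ℝ) * (b : ℝ) ^ (t - m)) * (b : ℝ) ^ m := by
            linarith
          exact lt_of_mul_lt_mul_right this hbm.le
        exact_mod_cast h6
    · rintro ⟨n, hn, h1, h2⟩
      rw [hF, mem_filter, mem_Ico] at hn
      obtain ⟨⟨h3, h4⟩, h5⟩ := hn
      have hβ : 0 < β := lt_of_le_of_lt (by positivity) h1
      have h6 : NB b β t = n := (NB_eq_iff hb hβ t n).2 ⟨h1, h2⟩
      refine ⟨lt_of_le_of_lt ?_ h1, h2.trans ?_, by rw [h6]; exact h5⟩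
      · rw [div_le_div_iff₀ hbm hbt, hbtm]
        have h7 : (a1 : ℝ) * (b : ℝ) ^ (t - m) ≤ n := by exact_mod_cast h3
        nlinarith
      · rw [div_le_div_iff₀ hbt hbm, hbtm]
        have h7 : (n : ℝ) + 1 ≤ (a2 : ℝ) * (b : ℝ) ^ (t - m) := by
          have : n + 1 ≤ a2 * b ^ (t - m) := h4
          exact_mod_cast this
        nlinarith
  rw [hset, measure_biUnion_finset]
  · have h1 : ∀ n ∈ F, volume (Set.Ioc ((n : ℝ) / (b : ℝ) ^ t) (((n : ℝ) + 1) / (b : ℝ) ^ t)) =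
        ENNReal.ofReal (((b : ℝ) ^ t)⁻¹) := by
      intro n _
      rw [Real.volume_Ioc]
      congr 1
      field_simp
      ring
    rw [Finset.sum_congr rfl h1, Finset.sum_const, nsmul_eq_mul]
    unfold Av
    rw [← Finset.sum_filter, Finset.sum_const, nsmul_eq_mul, mul_one, div_eq_mul_inv,
      ENNReal.ofReal_mul (Nat.cast_nonneg _), ENNReal.ofReal_natCast]
  · intro n _ n' _ hnn
    rw [Function.onFun, Set.disjoint_left]
    rintro β ⟨h1, h2⟩ ⟨h3, h4⟩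
    have hβ : 0 < β := lt_of_le_of_lt (by positivity) h1
    exact hnn (((NB_eq_iff hb hβ t n).2 ⟨h1, h2⟩).symm.trans ((NB_eq_iff hb hβ t n').2 ⟨h3, h4⟩))
  · intro n _
    exact measurableSet_Ioc

/-- the exponents of `β` in `T` -/
noncomputable def good (c : ℕ → ℤ) (b : ℕ) (β : ℝ) (T : Finset ℕ) : Finset ℕ :=
  T.filter (fun p => (roughPart p (sh c p (NB b β p))).Prime)

lemma good_eq {b : ℕ} (hb : 2 ≤ b) (c : ℕ → ℤ) {β : ℝ} (hβ : 0 < β) {T : Finset ℕ} {t : ℕ}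
    (ht : ∀ p ∈ T, p ≤ t) : good c b β T = hits c T b t (NB b β t) := by
  unfold good hits
  refine Finset.filter_congr fun p hp => ?_
  rw [NB_div hb hβ (ht p hp)]

theorem poisson (hTU : S_TU) (hRB : S_RB) (hFM : S_FM) {b A : ℕ} {c : ℕ → ℤ} (hOk : Ok b A c)
    {r : ℕ} {T : ℕ → Fin r → Finset ℕ} {lam : Fin r → ℝ} (hT : Thin (kap b) T lam)
    {u v : ℝ} (hu : 0 ≤ u) (huv : u < v) (k : Fin r → ℕ) :
    Tendsto (fun n => (volume {β : ℝ | u < β ∧ β ≤ v ∧ ∀ s, (good c b β (T n s)).card = k s}).toReal)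
      atTop (𝓝 ((v - u) * ∏ s, (Real.exp (-lam s) * lam s ^ k s / (k s).factorial))) := by
  classical
  have hb := hOk.hb
  have hb0 : (0 : ℝ) < b := by positivity
  have hκb := kap_nonneg b
  have hlam : ∀ s, 0 ≤ lam s := fun s => ge_of_tendsto' (hT.mass s) fun n =>
    mul_nonneg hκb (Finset.sum_nonneg fun p _ => lg_nonneg p)
  set PP := ∏ s, (Real.exp (-lam s) * lam s ^ k s / ((k s).factorial : ℝ)) with hPP
  have hPP0 : 0 ≤ PP := Finset.prod_nonneg fun s _ => by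
    have := hlam s
    positivity
  have hPP1 : PP ≤ 1 := by
    refine Finset.prod_le_one (fun s _ => by have := hlam s; positivity) fun s _ => ?_
    have h1 := Real.pow_div_factorial_le_exp (lam s) (hlam s) (k s)
    calc Real.exp (-lam s) * lam s ^ k s / ((k s).factorial : ℝ) =
        Real.exp (-lam s) * (lam s ^ k s / ((k s).factorial : ℝ)) := by ring
      _ ≤ Real.exp (-lam s) * Real.exp (lam s) := mul_le_mul_of_nonneg_left h1 (Real.exp_pos _).le
      _ = 1 := by rw [← Real.exp_add, neg_add_cancel, Real.exp_zero]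
  rw [Metric.tendsto_nhds]
  intro ε hε
  -- the level of the approximation
  obtain ⟨m, hm⟩ := exists_pow_lt_of_lt_one (show 0 < min (ε / 8) ((v - u) / 2) by
    have : 0 < v - u := by linarith
    positivity) (by norm_num : (1 / 2 : ℝ) < 1)
  have hbm : (0 : ℝ) < (b : ℝ) ^ m := by positivity
  have hbm2 : 1 / (b : ℝ) ^ m ≤ (1 / 2 : ℝ) ^ m := by
    rw [one_div_pow]
    apply one_div_le_one_div_of_le (by positivity)
    gcongr
    exact_mod_cast hb
  have hm1 : 1 / (b : ℝ) ^ m < ε / 8 := hbm2.trans_lt (hm.trans_le (min_le_left _ _))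
  have hm2 : 1 / (b : ℝ) ^ m < (v - u) / 2 := hbm2.trans_lt (hm.trans_le (min_le_right _ _))
  set a1 := ⌊u * (b : ℝ) ^ m⌋₊ + 1 with ha1
  set a2 := ⌊v * (b : ℝ) ^ m⌋₊ with ha2
  have hu1 : u < (a1 : ℝ) / (b : ℝ) ^ m := by
    rw [lt_div_iff₀ hbm, ha1]
    push_cast
    exact Nat.lt_floor_add_one _
  have hu2 : (a1 : ℝ) / (b : ℝ) ^ m ≤ u + 1 / (b : ℝ) ^ m := by
    rw [div_le_iff₀ hbm, ha1, add_mul, one_div, inv_mul_cancel₀ hbm.ne']
    push_cast
    have := Nat.floor_le (show 0 ≤ u * (b : ℝ) ^ m by positivity)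
    linarith
  have hv0 : 0 ≤ v := by linarith
  have hv1 : (a2 : ℝ) / (b : ℝ) ^ m ≤ v := by
    rw [div_le_iff₀ hbm, ha2]
    exact Nat.floor_le (by positivity)
  have hv2 : v - 1 / (b : ℝ) ^ m ≤ (a2 : ℝ) / (b : ℝ) ^ m := by
    rw [le_div_iff₀ hbm, ha2, sub_mul, one_div, inv_mul_cancel₀ hbm.ne']
    have := Nat.lt_floor_add_one (v * (b : ℝ) ^ m)
    linarith
  have h12 : a1 ≤ a2 := by
    have h1 : (a1 : ℝ) / (b : ℝ) ^ m ≤ (a2 : ℝ) / (b : ℝ) ^ m := by linarith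
    rw [div_le_div_iff_of_pos_right hbm] at h1
    exact_mod_cast h1
  -- the levels
  set t : ℕ → ℕ := fun n => m + ((UU (T n)).sup id) + 1 with ht
  have hmt : ∀ n, m ≤ t n := fun n => by rw [ht]; simp only; omega
  have htp : ∀ n, ∀ p ∈ UU (T n), p < t n := by
    intro n p hp
    have h1 : p ≤ (UU (T n)).sup id := Finset.le_sup (f := id) hp
    rw [ht]
    simp only
    omega
  have htp' : ∀ n s, ∀ p ∈ T n s, p ≤ t n := fun n s p hp =>
    (htp n p (by unfold UU; exact mem_biUnion.2 ⟨s, mem_univ s, hp⟩)).le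
  have hj := joint hTU hRB hFM hOk hT m a1 a2 (by omega) h12 t hmt htp univ (fun _ => 0)
    (fun _ => ⟨le_rfl, zero_le_one⟩) k
  have e1 : ∏ s, LL lam univ (fun _ => 0) k s = PP := by
    unfold LL
    simp only [mem_univ, if_true]
    rfl
  rw [e1] at hj
  have e2 : ∀ n, Av b m a1 a2 (t n) (fun x => ∏ s, fac c (T n) b (t n) univ (fun _ => 0) k s x) =
      (volume {β : ℝ | (a1 : ℝ) / (b : ℝ) ^ m < β ∧ β ≤ (a2 : ℝ) / (b : ℝ) ^ m ∧
        ∀ s, (hits c (T n s) b (t n) (NB b β (t n))).card = k s}).toReal := by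
    intro n
    rw [vol_eq hb (hmt n) (fun x => ∀ s, (hits c (T n s) b (t n) x).card = k s),
      ENNReal.toReal_ofReal (Av_nonneg fun x => by split_ifs <;> norm_num)]
    congr 1
    funext x
    unfold fac
    simp only [mem_univ, if_true]
    by_cases h : ∀ s, (hits c (T n s) b (t n) x).card = k s
    · rw [if_pos h]
      exact Finset.prod_eq_one fun s _ => by rw [if_pos (h s)]
    · rw [if_neg h]
      push Not at h
      obtain ⟨s, hs⟩ := h
      exact Finset.prod_eq_zero (mem_univ s) (by rw [if_neg hs])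
  have hev := (Metric.tendsto_nhds.1 hj) (ε / 4) (by positivity)
  filter_upwards [hev] with n hn
  rw [e2 n, Real.dist_eq] at hn
  rw [Real.dist_eq]
  set E := {β : ℝ | u < β ∧ β ≤ v ∧ ∀ s, (good c b β (T n s)).card = k s} with hE
  set I := {β : ℝ | (a1 : ℝ) / (b : ℝ) ^ m < β ∧ β ≤ (a2 : ℝ) / (b : ℝ) ^ m ∧
        ∀ s, (hits c (T n s) b (t n) (NB b β (t n))).card = k s} with hI
  have hIE : I ⊆ E := by
    rintro β ⟨h1, h2, h3⟩
    have hβ : 0 < β := lt_of_le_of_lt (by positivity) h1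
    refine ⟨hu1.trans h1, h2.trans hv1, fun s => ?_⟩
    rw [good_eq hb c hβ (htp' n s)]
    exact h3 s
  have hEI : E ⊆ I ∪ (Set.Ioc u ((a1 : ℝ) / (b : ℝ) ^ m) ∪ Set.Ioc ((a2 : ℝ) / (b : ℝ) ^ m) v) := by
    rintro β ⟨h1, h2, h3⟩
    have hβ : 0 < β := lt_of_le_of_lt hu h1
    rcases le_or_gt β ((a1 : ℝ) / (b : ℝ) ^ m) with h | h
    · exact Or.inr (Or.inl ⟨h1, h⟩)
    · rcases le_or_gt β ((a2 : ℝ) / (b : ℝ) ^ m) with h' | h'
      · refine Or.inl ⟨h, h', fun s => ?_⟩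
        rw [← good_eq hb c hβ (htp' n s)]
        exact h3 s
      · exact Or.inr (Or.inr ⟨h', h2⟩)
  have hEfin : volume E ≠ ⊤ := by
    refine ne_top_of_le_ne_top ?_ (measure_mono (show E ⊆ Set.Ioc u v from fun β h => ⟨h.1, h.2.1⟩))
    rw [Real.volume_Ioc]
    exact ENNReal.ofReal_ne_top
  have hIfin : volume I ≠ ⊤ := ne_top_of_le_ne_top hEfin (measure_mono hIE)
  have h1 : (volume I).toReal ≤ (volume E).toReal :=
    ENNReal.toReal_mono hEfin (measure_mono hIE)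
  have h2 : (volume E).toReal ≤ (volume I).toReal + 2 * (1 / (b : ℝ) ^ m) := by
    have h3 : volume E ≤ volume I + (ENNReal.ofReal ((a1 : ℝ) / (b : ℝ) ^ m - u) +
        ENNReal.ofReal (v - (a2 : ℝ) / (b : ℝ) ^ m)) := by
      refine (measure_mono hEI).trans ((measure_union_le _ _).trans ?_)
      refine add_le_add le_rfl ((measure_union_le _ _).trans ?_)
      rw [Real.volume_Ioc, Real.volume_Ioc]
    have h4 := ENNReal.toReal_mono (by
      exact ENNReal.add_ne_top.2 ⟨hIfin, ENNReal.add_ne_top.2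
        ⟨ENNReal.ofReal_ne_top, ENNReal.ofReal_ne_top⟩⟩) h3
    rw [ENNReal.toReal_add hIfin (ENNReal.add_ne_top.2 ⟨ENNReal.ofReal_ne_top, ENNReal.ofReal_ne_top⟩),
      ENNReal.toReal_add ENNReal.ofReal_ne_top ENNReal.ofReal_ne_top,
      ENNReal.toReal_ofReal (by linarith), ENNReal.toReal_ofReal (by linarith)] at h4
    linarith
  have h3 : |((a2 : ℝ) - a1) / (b : ℝ) ^ m * PP - (v - u) * PP| ≤ 2 * (1 / (b : ℝ) ^ m) := by
    rw [← sub_mul, abs_mul, abs_of_nonneg hPP0, sub_div]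
    have h5 : |(a2 : ℝ) / (b : ℝ) ^ m - (a1 : ℝ) / (b : ℝ) ^ m - (v - u)| ≤ 2 * (1 / (b : ℝ) ^ m) := by
      rw [abs_le]
      constructor <;> linarith
    exact (mul_le_of_le_one_right (abs_nonneg _) hPP1).trans h5
  rw [abs_lt] at hn ⊢
  rw [abs_le] at h3
  constructor <;> linarith

end Run7.h854.PO
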