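import Mathlib
import Pool.Agent.Run7.h854.PO.Law
import Pool.Agent.N176.SH.Pairs
import Pool.Agent.N176.SH.All
import Pool.Agent.N372.SH.OKP

set_option autoImplicit false

/-!
# The Poisson law in the three cases
-/

namespace Run7.h854.PO

open Finset Filter Topology MeasureTheory
open Pool.Agent.H305R2 (roughPart)
open Pool.Agent.N176.OW (kap S_FM)
open Pool.Agent.N176.SH
open Pool.Agent.N176.GP (NB)

theorem tu' : S_TU := Pool.Agent.N176.SH.All.tu
theorem rb' : S_RB := Pool.Agent.N897.SH.rb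
theorem fm' : S_FM := Pool.Agent.N176.OW.All.fm

/-- no shift -/
lemma ok_zero {b : ℕ} (hb : 2 ≤ b) : Ok b 64 (fun _ => 0) where
  hb := hb
  hA := le_rfl
  size := fun p _ => by simp
  deg := Or.inl fun _ => rfl

/-- the Poisson law without a shift -/
theorem poisson_zero {b : ℕ} (hb : 2 ≤ b)
    {r : ℕ} {T : ℕ → Fin r → Finset ℕ} {lam : Fin r → ℝ} (hT : Thin (kap b) T lam)
    {u v : ℝ} (hu : 0 ≤ u) (huv : u < v) (k : Fin r → ℕ) :
    Tendsto (fun n => (volume {β : ℝ | u < β ∧ β ≤ v ∧ ∀ s, ((T n s).filter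
        (fun p => (roughPart p (NB b β p)).Prime)).card = k s}).toReal)
      atTop (𝓝 ((v - u) * ∏ s, (Real.exp (-lam s) * lam s ^ k s / (k s).factorial))) := by
  have h := poisson tu' rb' fm' (ok_zero hb) hT hu huv k
  have e : ∀ (β : ℝ) (T : Finset ℕ), good (fun _ => 0) b β T =
      T.filter (fun p => (roughPart p (NB b β p)).Prime) := by
    intro β T
    unfold good
    refine Finset.filter_congr fun p _ => ?_
    unfold sh
    simp
  simp only [e] at h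
  exact h

/-- the shift one -/
lemma ok_one {b : ℕ} (hb : 2 ≤ b) : Ok b 64 (fun _ => 1) where
  hb := hb
  hA := le_rfl
  size := fun p hp => by
    rw [abs_one, one_mul]
    exact pow_le_pow_right₀ (by exact_mod_cast (by omega : 1 ≤ b)) (by omega)
  deg := Or.inr (Or.inl fun _ => rfl)

/-- the Poisson law with the shift one -/
theorem poisson_one {b : ℕ} (hb : 2 ≤ b)
    {r : ℕ} {T : ℕ → Fin r → Finset ℕ} {lam : Fin r → ℝ} (hT : Thin (kap b) T lam)
    {u v : ℝ} (hu : 0 ≤ u) (huv : u < v) (k : Fin r → ℕ) :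
    Tendsto (fun n => (volume {β : ℝ | u < β ∧ β ≤ v ∧ ∀ s, ((T n s).filter
        (fun p => (roughPart p ⌈β * (b : ℝ) ^ p⌉₊).Prime)).card = k s}).toReal)
      atTop (𝓝 ((v - u) * ∏ s, (Real.exp (-lam s) * lam s ^ k s / (k s).factorial))) := by
  have h := poisson tu' rb' fm' (ok_one hb) hT hu huv k
  refine h.congr fun n => ?_
  congr 2
  ext β
  rw [Set.mem_ofPred_eq, Set.mem_ofPred_eq]
  refine and_congr_right fun h1 => and_congr_right fun _ => forall_congr' fun s => ?_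
  have hβ : 0 < β := lt_of_le_of_lt hu h1
  have e : good (fun _ => 1) b β (T n s) =
      (T n s).filter (fun p => (roughPart p ⌈β * (b : ℝ) ^ p⌉₊).Prime) := by
    unfold good
    refine Finset.filter_congr fun p hp => ?_
    have h2 : sh (fun _ => 1) p (NB b β p) = ⌈β * (b : ℝ) ^ p⌉₊ := by
      have h3 : 0 < ⌈β * (b : ℝ) ^ p⌉₊ := Nat.ceil_pos.2 (by positivity)
      change (((⌈β * (b : ℝ) ^ p⌉₊ - 1 : ℕ) : ℤ) + 1).toNat = ⌈β * (b : ℝ) ^ p⌉₊
      omega
    rw [h2]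
  rw [e]

/-- the Poisson law for pairs `(a, b)` -/
theorem poisson_pair {a : ℕ} {b : ℤ} (hb1 : 1 ≤ |b|) (hba : |b| < a)
    {r : ℕ} {T : ℕ → Fin r → Finset ℕ} {lam : Fin r → ℝ} (hT : Thin (kap a) T lam)
    (hodd : ∀ᶠ n in atTop, ∀ s, ∀ p ∈ T n s, Odd p ∨ 0 < b)
    {u v : ℝ} (hu : 0 ≤ u) (huv : u < v) (k : Fin r → ℕ) :
    Tendsto (fun n => (volume {β : ℝ | u < β ∧ β ≤ v ∧ ∀ s, ((T n s).filter
        (fun p => (WW a b β p).Prime)).card = k s}).toReal)
      atTop (𝓝 ((v - u) * ∏ s, (Real.exp (-lam s) * lam s ^ k s / (k s).factorial))) := by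
  obtain ⟨A, hA⟩ := Pool.Agent.N372.SH.okp a b hb1 hba
  have h := poisson tu' rb' fm' hA hT hu huv k
  refine h.congr' ?_
  filter_upwards [hodd] with n hn
  congr 2
  ext β
  rw [Set.mem_ofPred_eq, Set.mem_ofPred_eq]
  refine and_congr_right fun h1 => and_congr_right fun _ => forall_congr' fun s => ?_
  have hβ : 0 < β := lt_of_le_of_lt hu h1
  have e : good (cc a b) a β (T n s) = (T n s).filter (fun p => (WW a b β p).Prime) := by
    unfold good
    refine Finset.filter_congr fun p hp => ?_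
    rw [WW_eq hA.hb hb1 hβ (hn s p hp)]
  rw [e]

lemma WW_one {a : ℕ} (ha : 2 ≤ a) {β : ℝ} (hβ : 0 < β) (p : ℕ) :
    WW a 1 β p = roughPart p (⌈β * (a : ℝ) ^ p⌉₊ - 1) := by
  have ha1 : (2 : ℝ) ≤ a := by exact_mod_cast ha
  have hx : 0 < β * (a : ℝ) ^ p := by positivity
  have h1 : ⌈((1 : ℤ) : ℝ) ^ p / ((a : ℝ) - ((1 : ℤ) : ℝ))⌉ = 1 := by
    rw [Int.ceil_eq_iff]
    push_cast
    rw [one_pow]
    constructor
    · rw [sub_self]
      have : 0 < (a : ℝ) - 1 := by linarith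
      positivity
    · rw [div_le_one (by linarith)]
      linarith
  unfold WW
  rw [h1]
  congr 1
  have h2 : ((⌈β * (a : ℝ) ^ p⌉₊ : ℕ) : ℤ) = ⌈β * (a : ℝ) ^ p⌉ := Int.natCast_ceil_eq_ceil hx.le
  omega

lemma WW_neg_one {a : ℕ} (ha : 2 ≤ a) {β : ℝ} (hβ : 0 < β) {p : ℕ} (hp : Odd p) :
    WW a (-1) β p = roughPart p ⌈β * (a : ℝ) ^ p⌉₊ := by
  have ha1 : (2 : ℝ) ≤ a := by exact_mod_cast ha
  have hx : 0 < β * (a : ℝ) ^ p := by positivity
  have h1 : ⌈((-1 : ℤ) : ℝ) ^ p / ((a : ℝ) - ((-1 : ℤ) : ℝ))⌉ = 0 := by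
    rw [Int.ceil_eq_iff]
    push_cast
    rw [hp.neg_one_pow]
    have h3 : 0 < (a : ℝ) - -1 := by linarith
    constructor
    · rw [lt_div_iff₀ h3]
      linarith
    · exact div_nonpos_of_nonpos_of_nonneg (by norm_num) h3.le
  unfold WW
  rw [h1]
  congr 1
  have h2 : ((⌈β * (a : ℝ) ^ p⌉₊ : ℕ) : ℤ) = ⌈β * (a : ℝ) ^ p⌉ := Int.natCast_ceil_eq_ceil hx.le
  omega

/-- the measures as extended numbers -/
lemma to_ennreal {E : ℕ → Set ℝ} {u v L : ℝ} (hE : ∀ n, E n ⊆ Set.Ioc u v)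
    (h : Tendsto (fun n => (volume (E n)).toReal) atTop (𝓝 L)) :
    Tendsto (fun n => volume (E n)) atTop (𝓝 (ENNReal.ofReal L)) := by
  have hfin : ∀ n, volume (E n) ≠ ⊤ := fun n => by
    refine ne_top_of_le_ne_top ?_ (measure_mono (hE n))
    rw [Real.volume_Ioc]
    exact ENNReal.ofReal_ne_top
  have hL : 0 ≤ L := ge_of_tendsto' h fun n => ENNReal.toReal_nonneg
  rw [← ENNReal.tendsto_toReal_iff hfin ENNReal.ofReal_ne_top, ENNReal.toReal_ofReal hL]
  exact h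

end Run7.h854.PO
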